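import Pool.Agent.H45.AD.Stm
import Pool.Agent.H45.AD.PVA2
import Pool.Agent.H45.PF.PIGF

/-! Statements for the project AD, second part: from the vanishing determinants to the count. -/

set_option autoImplicit false

namespace Pool.Agent.H45.AD

open Polynomial Pool.Agent.W223.HZ Pool.Agent.W223.PL Pool.Agent.Q276.PL Pool.Agent.H45.PF

/-- the data of a point -/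
def PtA (z L : ℝ) (J : Finset ℤ) (l : ℤ[X]) (x y : ℤ → ℤ) (τ : ℤ) : Prop :=
  |(τ : ℝ)| ≤ L ∧ l.eval τ ≠ 0 ∧ 0 ≤ x τ ∧ 1 ≤ y τ ∧ IsCoprime (x τ) (y τ) ∧
  x τ ^ 2 - l.eval τ * y τ ^ 2 ≠ 0 ∧ x τ ^ 2 - l.eval τ * y τ ^ 2 ∈ J ∧
  ∀ n : ℤ, 1 ≤ n → x τ ^ 2 - l.eval τ * y τ ^ 2 = n ^ 2 → BF z (l.eval τ) (x τ) (y τ) n

/-- CO: adapt `Pool.Agent.H45.NF.coren` (files NF/SIDEN.lean, NF/COREN.lean): replace `Pt` by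
`PtA`, `J = [-Z, Z]` by a general finite set `J`, `ar2_big` by the last clause of `PtA`. -/
def StmtCO : Prop := ∀ (k : ℕ) (l : ℤ[X]), Fam k l → ∀ (m n : ℕ) (L z W₀ Λ H : ℝ)
    (J T : Finset ℤ) (x y : ℤ → ℤ), k ≤ m → 1 ≤ m → n = 2 * m → 1 ≤ L → 1 ≤ z → 1 ≤ W₀ →
    1 ≤ Λ → (3 * n : ℝ) ≤ Λ → Real.log (120 * √L * Λ) ≤ 2 * Λ → 1 ≤ H →
    (∀ i, |(l.coeff i : ℝ)| ≤ H) → (∀ τ ∈ T, PtA z L J l x y τ) → (∀ N ∈ J, |(N : ℝ)| ≤ W₀) →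
    (∀ τ ∈ T, ∀ ν : ℤ, 0 ≤ ν → ν ≤ x τ → ∀ j < n,
      |(((x τ - ν) * τ ^ j : ℤ) : ℝ)| ≤ H ∧ |((y τ * τ ^ j : ℤ) : ℝ)| ≤ H) →
    (∀ f : Fin m ⊕ Fin m → ℤ, (∀ i, f i ∈ T) →
      (Mat m (fun i => x (f i)) (fun i => y (f i)) f).det = 0) →
    W₀ * (n * (2 * n * H) ^ (2 * n) * L ^ n) ≤ Real.exp Λ →
    ∃ M : ℤ, M ≠ 0 ∧ |(M : ℝ)| ≤ (((2 * n + 2) * (2 * n * H) ^ (2 * n)) ^ (2 * n + 2)) ^ 2 ∧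
      ∃ E ⊆ T, (E.card : ℝ) ≤ (m : ℝ) ^ 2 + 2 * (n : ℝ) ^ 2 + ((J.card : ℝ) + 1) *
        (400000 * √L * Λ ^ 3) ∧
      ∀ τ ∈ T \ E, z < (Int.gcd (l.eval τ) M : ℝ)

/-- a solution in a class: `y` in a dyadic range, the norm `n ∏ p ^ (kk p)`, and a congruence -/
def SolC (Sp : Finset ℕ) (a kk : ℕ → ℕ) (R : ℕ → ℤ[X]) (V z Z : ℝ) (d τ : ℤ) : Prop :=
  ∃ x y : ℤ, 0 ≤ x ∧ V ≤ y ∧ (y : ℝ) < 2 * V ∧ IsCoprime x y ∧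
    (∃ n : ℤ, n ≠ 0 ∧ |(n : ℝ)| ≤ Z ∧ x ^ 2 - d * y ^ 2 = n * ∏ p ∈ Sp, (p : ℤ) ^ kk p) ∧
    (∀ p ∈ Sp, (p : ℤ) ^ kk p ∣ x - (R p).eval ((p : ℤ) ^ a p * τ) * y) ∧
    ∀ n : ℤ, 1 ≤ n → x ^ 2 - d * y ^ 2 = n ^ 2 → BF z d x y n

/-- PI: adapt `Pool.Agent.H45.NF.pign` (file NF/PIGN.lean), using `StmtCO` for `coren` and
`Pool.Agent.H45.AD.pva` (file AD/PVA2.lean) for `pvf`. Take `J` = the image of `[-⌊Z⌋, ⌊Z⌋]` under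
multiplication by `∏ p ^ kk p`, `W₀ = D * D ^ (2 * σ)`, `Λ = 52 m² log D`. -/
def StmtPI : Prop := ∀ (k : ℕ) (ε θ : ℝ), 0 < ε → ε ≤ 1 → 0 < θ → ∃ C₈ : ℝ, 1 ≤ C₈ ∧
    ∀ (D V σ z Z S : ℝ) (m : ℕ) (l : ℤ[X]) (T : Finset ℤ) (Sp : Finset ℕ) (a kk : ℕ → ℕ)
    (R : ℕ → ℤ[X]), C₈ ≤ D → 0 ≤ σ →
    C₈ * (2 * σ + 1) ^ 2 ≤ m → C₈ * m ≤ Real.log D → 1 ≤ V → V ≤ D ^ σ → 1 ≤ z →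
    1 ≤ Z → Z ≤ D ^ ((1 : ℝ) / 8) → Near k ε D S l →
    (∀ p ∈ Sp, p.Prime) → (∀ p ∈ Sp, D ^ θ ≤ (p : ℝ) ^ a p) →
    (∏ p ∈ Sp, (p : ℝ) ^ kk p ≤ D ^ (2 * σ)) →
    (∀ τ ∈ T, |(τ : ℝ)| ≤ D ^ (1 / (8 * (m : ℝ))) ∧ D ≤ ((l.eval τ : ℤ) : ℝ) ∧
      SolC Sp a kk R V z Z (l.eval τ) τ) →
    ∃ M : ℤ, M ≠ 0 ∧ Real.log |(M : ℝ)| ≤ C₈ * (m : ℝ) ^ 3 * Real.log D ∧ ∃ E ⊆ T,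
      (E.card : ℝ) ≤ C₈ * Z * D ^ (1 / (16 * (m : ℝ))) * ((m : ℝ) ^ 2 * Real.log D) ^ 3 ∧
      ∀ τ ∈ T \ E, z < (Int.gcd (l.eval τ) M : ℝ)

/-- CL: the class of a norm -/
def StmtCL : Prop :=
  (∀ (Sp : Finset ℕ) (Z : ℝ) (N : ℤ), (∀ p ∈ Sp, p.Prime) → N ≠ 0 → NS Sp Z N →
    ∃ n : ℤ, n ≠ 0 ∧ |(n : ℝ)| ≤ Z ∧ N = n * ∏ p ∈ Sp, (p : ℤ) ^ (padicValInt p N) ∧
      ∏ p ∈ Sp, (p : ℝ) ^ (padicValInt p N) ≤ |(N : ℝ)|) ∧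
  (∀ (Sp : Finset ℕ) (a : ℕ → ℕ) (N₀ : ℤ), (∀ p ∈ Sp, p.Prime) → (∀ p ∈ Sp, 1 ≤ a p) →
    (∀ p ∈ Sp, ¬ (p : ℤ) ∣ N₀) → Fam 1 (C N₀ + C (∏ p ∈ Sp, (p : ℤ) ^ a p) * X))

/-- the conditions on the primes in a window -/
def GoodS (Sp : Finset ℕ) (a : ℕ → ℕ) (N₀ : ℤ) (θ D : ℝ) : Prop :=
  ∀ p ∈ Sp, p.Prime ∧ p ≠ 2 ∧ ¬ (p : ℤ) ∣ N₀ ∧ IsSquare ((N₀ : ℤ) : ZMod p) ∧ 1 ≤ a p ∧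
    D ^ θ ≤ (p : ℝ) ^ a p

/-- the points of a window which have a small solution -/
def WinS (Sp : Finset ℕ) (N₀ M : ℤ) (L Z Y : ℝ) : Set ℤ := {τ : ℤ | |(τ : ℝ)| ≤ L ∧
  Squarefree (N₀ + M * τ) ∧ ∃ x y : ℤ, 0 ≤ x ∧ 1 ≤ y ∧ NS Sp Z (x ^ 2 - (N₀ + M * τ) * y ^ 2) ∧
    (x : ℝ) + y * √((N₀ + M * τ : ℤ) : ℝ) ≤ Y}

/-- WI: adapt `Pool.Agent.H45.PS.winp` (file PS/WINP.lean), `k = 1`, `ε = 1 / 4`,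
`l = C N₀ + C M * X` with `M = ∏ p ^ a p`. The classes: `i` with `2 ^ i ≤ y < 2 * 2 ^ i`, the
exponents `kk p = padicValInt p norm ≤ 2 σ log D` and a sign for each `p ∈ Sp`; the number of the
classes of exponents and signs is at most `(2 * (2 σ log D + 1)) ^ Sp.card` (index them by
functions `Sp → Fin (⌊2 σ log D⌋₊ + 1) × Bool`). Uses StmtFS (all parts), StmtRT, StmtCL, StmtPI. -/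
def StmtWI : Prop := ∀ (θ : ℝ), 0 < θ → ∃ C₉ : ℝ, 1 ≤ C₉ ∧
    ∀ (D σ z Z P₀ y L : ℝ) (m K : ℕ) (N₀ M : ℤ) (Sp : Finset ℕ) (a : ℕ → ℕ), C₉ ≤ D → 0 ≤ σ →
    C₉ * (2 * σ + 1) ^ 2 ≤ m → C₉ * m ≤ Real.log D → 1 ≤ z → 4 * z ^ 2 ≤ Z →
    Z ≤ D ^ ((1 : ℝ) / 8) → 1 ≤ P₀ → P₀ ^ K ≤ √z →
    L = D ^ (1 / (8 * (m : ℝ))) → P₀ ^ (K + 1) ≤ 2 * L → z ≤ 2 * L → 1 ≤ y →
    GoodS Sp a N₀ θ D → M = ∏ p ∈ Sp, (p : ℤ) ^ a p → D ≤ N₀ → (N₀ : ℝ) ≤ 2 * D →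
    (M : ℝ) * D ^ ((1 : ℝ) / 4) ≤ D / 8 →
    (∀ τ : ℤ, |(τ : ℝ)| ≤ L → D ≤ ((N₀ + M * τ : ℤ) : ℝ)) →
    ((WinS Sp N₀ M L Z (D ^ σ)).ncard : ℝ) ≤ (2 * σ * Real.log D + 1) *
      (2 * (2 * σ * Real.log D + 1)) ^ Sp.card *
      (C₉ * Z * D ^ (1 / (16 * (m : ℝ))) * ((m : ℝ) ^ 2 * Real.log D) ^ 3 +
        (C₉ * (m : ℝ) ^ 3 * Real.log D * (2 * L / √z + 1) + 4 * L * (√(√z))⁻¹ *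
          Real.exp (C₉ * (m : ℝ) ^ 3 * Real.log D / √P₀))) +
      4 * L * (y ^ (K + 1))⁻¹ * Real.exp (y * (1 + Real.log P₀))

/-- BL: adapt `Pool.Agent.H45.PU.blku` (file PU/BLKU.lean), using `StmtWI` for `winp`; `params3`
can be used as it is, with one more condition `(2 * (2 σ l + 1)) ^ s ≤ exp (e w / 800)` obtained
from `polyexp2` with `n = 2 s`. -/
def StmtBL : Prop := ∀ (s : ℕ) (θ e : ℝ), 0 < θ → 0 < e → e ≤ 1 / 2 → ∃ c : ℝ, 0 < c ∧ c ≤ 1 ∧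
    ∃ D₁ : ℝ, 1 ≤ D₁ ∧ ∀ D : ℝ, D₁ ≤ D → ∀ σ : ℝ, 1 ≤ σ → σ ≤ Real.log D ^ (1 / 2 - e) →
      ∃ L : ℝ, 1 ≤ L ∧ L ≤ D ^ ((1 : ℝ) / 16) ∧
      ∀ (N₀ M : ℤ) (Sp : Finset ℕ) (a : ℕ → ℕ), Sp.card ≤ s → GoodS Sp a N₀ θ D →
      M = ∏ p ∈ Sp, (p : ℤ) ^ a p → D ≤ N₀ → (N₀ : ℝ) ≤ 2 * D →
      (M : ℝ) * D ^ ((1 : ℝ) / 4) ≤ D / 8 →
      (∀ τ : ℤ, |(τ : ℝ)| ≤ L → D ≤ ((N₀ + M * τ : ℤ) : ℝ)) →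
      ((WinS Sp N₀ M L (D ^ (c / σ ^ 2)) (D ^ σ)).ncard : ℝ) ≤ L * D ^ (-(c / σ ^ 2))

/-- the integers with a small solution -/
def KP (S : Finset ℕ) (N : ℕ) (Z Y : ℝ) : Set ℕ := {d : ℕ | N < d ∧ 2 * d ≤ 3 * N ∧
  Squarefree (d : ℤ) ∧ (∀ p ∈ S, ¬ p ∣ d ∧ IsSquare (d : ZMod p)) ∧
  ∃ x y : ℤ, 0 ≤ x ∧ 1 ≤ y ∧ NS S Z (x ^ 2 - d * y ^ 2) ∧ (x : ℝ) + y * √(d : ℝ) ≤ Y}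

/-- KB: the covering. With `θ = 1 / (2 (s + 1))`, `D = N`, `a p` the least exponent `≥ 1` with
`D ^ θ ≤ p ^ a p` (so `p ^ a p ≤ D ^ θ * p`) and `M = ∏ p ^ a p ≤ D ^ (5 / 8)`: every `d` in
`(N, 3 N / 2]` is `N₀ + M τ` with `N₀ = N + 1 + r + M (j (2 L' + 1) + L')`, `L' = ⌊L⌋₊`,
`0 ≤ r < M`, `|τ| ≤ L'`, `j M (2 L' + 1) < N / 2`. -/
def StmtKB : Prop := ∀ (s : ℕ) (e : ℝ), 0 < e → e ≤ 1 / 2 → ∃ c : ℝ, 0 < c ∧ c ≤ 1 ∧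
    ∃ N₁ : ℕ, ∀ N ≥ N₁, ∀ A : ℝ, 1 ≤ A → A ≤ Real.log N ^ (1 / 2 - e) →
      ∀ S : Finset ℕ, S.card ≤ s →
      (∀ p ∈ S, p.Prime ∧ p ≠ 2 ∧ (p : ℝ) ≤ (N : ℝ) ^ (c / A ^ 2)) →
      ((KP S N ((N : ℝ) ^ (c / A ^ 2)) ((N : ℝ) ^ A)).ncard : ℝ) ≤ (N : ℝ) ^ (1 - c / A ^ 2)

end Pool.Agent.H45.AD
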