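import Pool.Agent.H45.AD.Defs
import Pool.Agent.H45.Lib.S8.W223.HZ.Stms

/-! Statements for the project AD (adelic determinant method). -/

set_option autoImplicit false

namespace Pool.Agent.H45.AD

open Polynomial NumberField Pool.Agent.H45.RQ Pool.Agent.W223.HZ

/-- PD: the determinant is divisible by a large power of `p` -/
def StmtPD : Prop := ∀ (p a k m E : ℕ) (P Q τ : Fin m ⊕ Fin m → ℤ) (R : ℤ[X]), 1 ≤ p →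
  (∀ i, (p : ℤ) ^ k ∣ P i - R.eval ((p : ℤ) ^ a * τ i) * Q i) →
  (∀ u : ℕ, u ≤ m → E ≤ k * (m - u) + a * u ^ 2) → (p : ℤ) ^ E ∣ (Mat m P Q τ).det

/-- RT: the square root of a linear polynomial modulo `p ^ k`, and the choice of the sign -/
def StmtRT : Prop :=
  (∀ (p k : ℕ) (N₀ M : ℤ), p.Prime → p ≠ 2 → ¬ (p : ℤ) ∣ N₀ → IsSquare ((N₀ : ℤ) : ZMod p) →
    ∃ R : ℤ[X], ∀ z : ℤ, (p : ℤ) ∣ z → (p : ℤ) ^ k ∣ (R.eval z) ^ 2 - (N₀ + M * z)) ∧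
  (∀ (p k : ℕ) (l r x y : ℤ), p.Prime → p ≠ 2 → ¬ (p : ℤ) ∣ l → IsCoprime x y →
    (p : ℤ) ^ k ∣ r ^ 2 - l → (p : ℤ) ^ k ∣ x ^ 2 - l * y ^ 2 →
    (p : ℤ) ^ k ∣ x - r * y ∨ (p : ℤ) ^ k ∣ x + r * y)

/-- FS: the least solution -/
def StmtFS : Prop :=
  (∀ (S : Finset ℕ) (N : ℤ), N ≠ 0 →
    ∃ a b : ℤ, N = a * b ∧ Sm S b ∧ ∀ p ∈ S, p.Prime → ¬ (p : ℤ) ∣ a) ∧
  (∀ (S : Finset ℕ) (Z : ℝ) (d x y : ℤ), 1 ≤ d → 0 ≤ x → 1 ≤ y → NS S Z (x ^ 2 - d * y ^ 2) →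
    ∃ x₀ y₀ : ℤ, FundS S Z d x₀ y₀ ∧ (x₀ : ℝ) + y₀ * √(d : ℝ) ≤ x + y * √(d : ℝ)) ∧
  (∀ (S : Finset ℕ) (Z : ℝ) (d x y : ℤ), 2 ≤ d → Squarefree d → FundS S Z d x y →
    IsCoprime x y ∧ x ^ 2 - d * y ^ 2 ≠ 0) ∧
  (∀ (S : Finset ℕ) (Z z : ℝ) (d x y n : ℤ), 2 ≤ d → Squarefree d → FundS S Z d x y → 1 ≤ n →
    x ^ 2 - d * y ^ 2 = n ^ 2 → 1 ≤ z → 4 * z ^ 2 ≤ Z → 4 * z ^ 2 < d → BF z d x y n)

/-- SP: for almost all `d` there are many small split primes -/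
def StmtSP : Prop := ∃ Y₀ : ℕ, ∀ Y N : ℕ, Y₀ ≤ Y → Y ^ 4 ≤ N → Real.log N ^ 2 ≤ Y →
  (({d : ℕ | N < d ∧ d ≤ 2 * N ∧ ((spl d Y).card : ℝ) < (Y : ℝ) ^ ((3 : ℝ) / 4)}.ncard : ℕ) : ℝ) ≤
    N * (Y : ℝ) ^ (-(1 : ℝ) / 2)

/-- PK: torsion of the class group and small split primes (packing on the circle of length
`2 log ε`). -/
def StmtPK : Prop := ∀ (d Y k : ℕ) (B : ℝ), 1 < d → Squarefree d → 1 ≤ k → 0 < B →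
  2 * k * Real.log Y ≤ B →
  (∀ p ∈ spl d Y, ∀ q ∈ spl d Y, ∀ x y : ℤ, 0 ≤ x → 1 ≤ y → NS {p, q} 4 (x ^ 2 - d * y ^ 2) →
    2 * Real.exp B < x + y * √(d : ℝ)) →
  ((spl d Y).card : ℝ) * (Nat.card {c : ClassGroup (𝓞 (QS d)) // c ^ k = 1} : ℝ) * B ≤
    2 * hnum d * Units.regulator (QS d)

/-- the subgroup of the class group generated by the primes above `S` -/
noncomputable def GS (d : ℕ) (S : Finset ℕ) : Subgroup (ClassGroup (𝓞 (QS d))) :=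
  Subgroup.closure {c | ∃ P : nonZeroDivisors (Ideal (𝓞 (QS d))), (P : Ideal (𝓞 (QS d))).IsPrime ∧
    (∃ p ∈ S, ((p : ℕ) : 𝓞 (QS d)) ∈ (P : Ideal (𝓞 (QS d)))) ∧ c = ClassGroup.mk0 P}

/-- SC: the class number of the `S`-integers (packing in the lattice of the `S`-units). -/
def StmtSC : Prop := ∀ (d Y : ℕ) (S : Finset ℕ) (B : ℝ), 1 < d → Squarefree d → 0 < B →
  S ⊆ spl d Y →
  (∀ x y : ℤ, 0 ≤ x → 1 ≤ y → NS S 4 (x ^ 2 - d * y ^ 2) → 2 * Real.exp B < x + y * √(d : ℝ)) →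
  ((GS d S).index : ℝ) * B * ∏ p ∈ S, (B / (2 * (S.card : ℝ) * Real.log p)) ≤
    2 * hnum d * Units.regulator (QS d)

end Pool.Agent.H45.AD
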