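import Pool.Agent.H45.RQ.Field

/-! Elements of real quadratic fields with a norm composed of few primes: definitions. -/

set_option autoImplicit false

namespace Pool.Agent.H45.AD

open Polynomial NumberField Pool.Agent.H45.RQ

/-- `b` is a positive integer composed of primes of `S` -/
def Sm (S : Finset ℕ) (b : ℤ) : Prop := 0 < b ∧ ∀ p : ℕ, p.Prime → (p : ℤ) ∣ b → p ∈ S

/-- `N = a b` with `|a| ≤ Z` and `b` composed of primes of `S` -/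
def NS (S : Finset ℕ) (Z : ℝ) (N : ℤ) : Prop :=
  ∃ a b : ℤ, N = a * b ∧ |(a : ℝ)| ≤ Z ∧ Sm S b

/-- the least solution `x + y √d` with a norm of this kind -/
def FundS (S : Finset ℕ) (Z : ℝ) (d x y : ℤ) : Prop := 0 ≤ x ∧ 1 ≤ y ∧ NS S Z (x ^ 2 - d * y ^ 2) ∧
  ∀ x' y' : ℤ, 0 ≤ x' → 1 ≤ y' → NS S Z (x' ^ 2 - d * y' ^ 2) →
    (x : ℝ) + y * √(d : ℝ) ≤ x' + y' * √(d : ℝ)

/-- a factorisation of `d` attached to a solution with the square norm `n ^ 2` -/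
def BF (z : ℝ) (d x y n : ℤ) : Prop := ∃ e e' r s κ : ℤ, 1 ≤ e ∧ 1 ≤ e' ∧ 1 ≤ r ∧ 1 ≤ s ∧
  e * e' = d ∧ (κ = 1 ∨ κ = 2) ∧ (x - n) * s = e * r * y ∧ (x + n) * r = e' * s * y ∧
  e' * s ^ 2 - e * r ^ 2 = κ * n ∧ IsCoprime (e * r) s ∧ IsCoprime (e' * s) r ∧
  z < (e : ℝ) ∧ z < (e' : ℝ)

/-- the odd primes up to `Y` which split in `ℚ(√d)` -/
noncomputable def spl (d Y : ℕ) : Finset ℕ := by
  classical
  exact (Finset.range (Y + 1)).filter fun p => p.Prime ∧ p ≠ 2 ∧ ¬ p ∣ d ∧ IsSquare (d : ZMod p)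

end Pool.Agent.H45.AD
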