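import Pool.Agent.H45.AD.Stm4

/-! Torsion in the class groups: mean values, uniformly in the exponent. -/

set_option autoImplicit false

namespace Pool.Agent.H45.AD

open Polynomial NumberField Pool.Agent.H45.RQ Pool.Agent.H45.PU Filter

/-- T6: the torsion on average, uniformly in `k` -/
def StmtT6 : Prop := ∀ e ε : ℝ, 0 < e → 0 < ε → ∃ c : ℝ, 0 < c ∧ ∃ N₀ : ℕ, ∀ N ≥ N₀, ∀ k : ℕ,
    5 ≤ k → (k : ℝ) ≤ Real.log N ^ (3 / 2 - e) →
      ∑ d ∈ (Finset.Ioc N (2 * N)).filter Squarefree, (Tk d k : ℝ) ≤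
        (N : ℝ) ^ (3 / 2 - max (3 / (2 * (k : ℝ) + 2) - ε) (c / (k : ℝ) ^ ((2 : ℝ) / 3)))

theorem Tk_le (d k : ℕ) : (Tk d k : ℝ) ≤ hnum d := by
  unfold Tk hnum
  exact_mod_cast Nat.card_le_card_of_injective _ Subtype.val_injective

theorem rpow_two {N : ℝ} (hN : 1 ≤ N) {d x : ℝ} (h1 : N ≤ d) (h2 : d ≤ 2 * N) (hx : x ≤ 1) :
    d ^ x ≤ 2 * N ^ x := by
  have hN0 : 0 < N := by linarith
  rcases le_total 0 x with h | h
  · calc d ^ x ≤ (2 * N) ^ x := Real.rpow_le_rpow (by linarith) h2 h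
      _ = 2 ^ x * N ^ x := Real.mul_rpow (by norm_num) hN0.le
      _ ≤ 2 * N ^ x := by
          apply mul_le_mul_of_nonneg_right _ (Real.rpow_nonneg hN0.le _)
          calc (2 : ℝ) ^ x ≤ (2 : ℝ) ^ (1 : ℝ) :=
                Real.rpow_le_rpow_of_exponent_le (by norm_num) hx
            _ = 2 := Real.rpow_one 2
  · calc d ^ x ≤ N ^ x := Real.rpow_le_rpow_of_nonpos hN0 h1 h
      _ ≤ 2 * N ^ x := by
          have := Real.rpow_nonneg hN0.le x
          linarith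

theorem t6 (h3 : StmtT3) (hAV : StmtAV) : StmtT6 := by
  classical
  intro e ε he hε
  obtain ⟨e', he'⟩ : ∃ e' : ℝ, e' = min (e / 3) (1 / 2) := ⟨_, rfl⟩
  have he0 : 0 < e' := by rw [he']; positivity
  have he1 : e' ≤ 1 / 2 := by rw [he']; exact min_le_right _ _
  have he3 : e' ≤ e / 3 := by rw [he']; exact min_le_left _ _
  obtain ⟨c, hc, N₁, hN₁⟩ := h3 e' he0 he1
  obtain ⟨C, hC, htriv⟩ := h_triv
  -- the finitely many small `k`
  have hfin : ∃ N₂ : ℕ, ∀ N ≥ N₂, ∀ k : ℕ, 5 ≤ k → (k : ℝ) ≤ 3 / (2 * ε) →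
      ∑ d ∈ (Finset.Ioc N (2 * N)).filter Squarefree, (Tk d k : ℝ) ≤
        (N : ℝ) ^ (3 / 2 - 3 / (2 * (k : ℝ) + 2) + ε) := by
    choose! F hF using fun k : ℕ => fun hk : 5 ≤ k => hAV k ε hk hε
    refine ⟨(Finset.range (⌊3 / (2 * ε)⌋₊ + 1)).sup F, fun N hN k hk hk2 => ?_⟩
    apply hF k hk
    refine le_trans (Finset.le_sup (f := F) ?_) hN
    rw [Finset.mem_range, Nat.lt_succ_iff]
    exact Nat.le_floor hk2
  obtain ⟨N₂, hN₂⟩ := hfin
  obtain ⟨N₃, hN₃⟩ := Filter.eventually_atTop.1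
    (evpow (20 * C) (c / 2) e' (by linarith) (by positivity) he0)
  refine ⟨c / 2, by positivity, max 2 (max N₁ (max N₂ N₃)), fun N hN k hk5 hkN => ?_⟩
  have hN2 : 2 ≤ N := (le_max_left _ _).trans hN
  have hNa := (le_max_right _ _).trans hN
  have hNN1 : N₁ ≤ N := (le_max_left _ _).trans hNa
  have hNb := (le_max_right _ _).trans hNa
  have hNN2 : N₂ ≤ N := (le_max_left _ _).trans hNb
  have hNN3 : N₃ ≤ N := (le_max_right _ _).trans hNb
  have hN1r : (1 : ℝ) ≤ N := by exact_mod_cast (by omega : 1 ≤ N)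
  have hN0r : (0 : ℝ) < N := by linarith
  have hk5r : (5 : ℝ) ≤ k := by exact_mod_cast hk5
  have hk0 : (0 : ℝ) < k := by linarith
  obtain ⟨hlog1, hev⟩ := hN₃ N hNN3
  -- the second alternative
  obtain ⟨A, hA⟩ : ∃ A : ℝ, A = (k : ℝ) ^ ((1 : ℝ) / 3) := ⟨_, rfl⟩
  have hA1 : 1 ≤ A := by rw [hA]; exact Real.one_le_rpow (by linarith) (by norm_num)
  have hA3 : A ^ 3 = k := by
    rw [hA, ← Real.rpow_natCast, ← Real.rpow_mul hk0.le]
    norm_num
  have hA2 : A ^ 2 = (k : ℝ) ^ ((2 : ℝ) / 3) := by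
    rw [hA, ← Real.rpow_natCast, ← Real.rpow_mul hk0.le]
    norm_num
  have hAlog : A ≤ Real.log N ^ (1 / 2 - e') := by
    have h1 : A ≤ (Real.log N ^ (3 / 2 - e)) ^ ((1 : ℝ) / 3) := by
      rw [hA]
      exact Real.rpow_le_rpow hk0.le hkN (by norm_num)
    rw [← Real.rpow_mul (by linarith)] at h1
    refine h1.trans (Real.rpow_le_rpow_of_exponent_le hlog1 ?_)
    linarith
  obtain ⟨hA2l, hlogC, -⟩ := hev A hA1 hAlog
  have hT3 := hN₁ N hNN1 A hA1 hAlog
  have hsecond : ∑ d ∈ (Finset.Ioc N (2 * N)).filter Squarefree, (Tk d k : ℝ) ≤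
      (N : ℝ) ^ (3 / 2 - c / 2 / (k : ℝ) ^ ((2 : ℝ) / 3)) := by
    rw [← hA2]
    obtain ⟨E, hE⟩ : ∃ E : Set ℕ, E = {d : ℕ | N < d ∧ d ≤ 2 * N ∧ Squarefree d ∧ ∃ k : ℕ,
        1 ≤ k ∧ (k : ℝ) ≤ A ^ 3 ∧ (d : ℝ) ^ (1 / 2 - c / (k : ℝ) ^ ((2 : ℝ) / 3)) <
          (Nat.card {a : ClassGroup (𝓞 (QS d)) // a ^ k = 1} : ℝ)} := ⟨_, rfl⟩
    rw [← hE] at hT3
    have hEfin : E.Finite := by
      refine (Set.finite_Icc N (2 * N)).subset ?_
      rw [hE]
      rintro d ⟨h1, h2, -⟩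
      exact ⟨h1.le, h2⟩
    have hx1 : 1 / 2 - c / A ^ 2 ≤ 1 := by
      have : 0 < c / A ^ 2 := by positivity
      linarith
    -- the bound for one `d`
    have hone : ∀ d ∈ (Finset.Ioc N (2 * N)).filter Squarefree, (Tk d k : ℝ) ≤
        2 * (N : ℝ) ^ (1 / 2 - c / A ^ 2) +
          (if d ∈ E then 8 * C * (√(N : ℝ) * Real.log N) else 0) := by
      intro d hd
      rw [Finset.mem_filter, Finset.mem_Ioc] at hd
      obtain ⟨⟨hd1, hd2⟩, hd3⟩ := hd
      have hd1r : (N : ℝ) ≤ d := by exact_mod_cast hd1.le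
      have hd2r : (d : ℝ) ≤ 2 * N := by exact_mod_cast hd2
      have hpos : 0 ≤ 2 * (N : ℝ) ^ (1 / 2 - c / A ^ 2) := by positivity
      by_cases hdE : d ∈ E
      · rw [if_pos hdE]
        have h4 := (Tk_le d k).trans (htriv d (by omega) hd3)
        have h5 : √(d : ℝ) ≤ 2 * √(N : ℝ) := by
          rw [show (2 : ℝ) * √(N : ℝ) = √(4 * N) by
            rw [Real.sqrt_mul (by norm_num), show (4 : ℝ) = 2 ^ 2 by norm_num,
              Real.sqrt_sq (by norm_num)]]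
          exact Real.sqrt_le_sqrt (by linarith)
        have h6 : 1 + Real.log d ≤ 3 * Real.log N := by
          have h7 := Real.log_le_log (by linarith) hd2r
          rw [Real.log_mul (by norm_num) hN0r.ne'] at h7
          have h8 : Real.log 2 ≤ 1 := by
            have := Real.log_two_lt_d9
            linarith
          linarith
        have h7 : 0 ≤ 1 + Real.log d := by
          have := Real.log_nonneg (by linarith : (1 : ℝ) ≤ d)
          linarith
        have h8 : C * √(d : ℝ) * (1 + Real.log d) ≤ C * (2 * √(N : ℝ)) * (3 * Real.log N) := by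
          gcongr
        have h9 : 0 ≤ C * (√(N : ℝ) * Real.log N) := by
          have : 0 ≤ C := by linarith
          have h10 : 0 ≤ Real.log N := by linarith
          positivity
        nlinarith
      · rw [if_neg hdE, add_zero]
        have h4 : ¬ ((d : ℝ) ^ (1 / 2 - c / (k : ℝ) ^ ((2 : ℝ) / 3)) <
            (Nat.card {a : ClassGroup (𝓞 (QS d)) // a ^ k = 1} : ℝ)) := by
          intro h5
          apply hdE
          rw [hE]
          exact ⟨hd1, hd2, hd3, k, by omega, by rw [hA3], h5⟩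
        rw [not_lt, ← hA2] at h4
        exact h4.trans (rpow_two hN1r hd1r hd2r hx1)
    refine (Finset.sum_le_sum hone).trans ?_
    rw [Finset.sum_add_distrib, Finset.sum_const, nsmul_eq_mul]
    have hcard : ((((Finset.Ioc N (2 * N)).filter Squarefree).card : ℕ) : ℝ) ≤ N := by
      have h4 := Finset.card_filter_le (Finset.Ioc N (2 * N)) Squarefree
      rw [Nat.card_Ioc] at h4
      exact_mod_cast (by omega : ((Finset.Ioc N (2 * N)).filter Squarefree).card ≤ N)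
    have hsum2 : ∑ d ∈ (Finset.Ioc N (2 * N)).filter Squarefree,
        (if d ∈ E then 8 * C * (√(N : ℝ) * Real.log N) else 0) ≤
        (N : ℝ) ^ (1 - c / A ^ 2) * (8 * C * (√(N : ℝ) * Real.log N)) := by
      rw [← Finset.sum_filter, Finset.sum_const, nsmul_eq_mul]
      apply mul_le_mul_of_nonneg_right _ _
      · refine le_trans ?_ hT3
        have h4 : (((Finset.Ioc N (2 * N)).filter Squarefree).filter fun d => d ∈ E).card ≤
            E.ncard := by
          rw [Set.ncard_eq_toFinset_card _ hEfin]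
          apply Finset.card_le_card
          intro d hd
          rw [Set.Finite.mem_toFinset]
          exact (Finset.mem_filter.1 hd).2
        exact_mod_cast h4
      · have : 0 ≤ C := by linarith
        have h10 : 0 ≤ Real.log N := by linarith
        positivity
    have hsq : √(N : ℝ) = (N : ℝ) ^ ((1 : ℝ) / 2) := Real.sqrt_eq_rpow _
    have hP0 : 0 < (N : ℝ) ^ (3 / 2 - c / A ^ 2) := Real.rpow_pos_of_pos hN0r _
    have h4 : (N : ℝ) * (2 * (N : ℝ) ^ (1 / 2 - c / A ^ 2)) =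
        2 * (N : ℝ) ^ (3 / 2 - c / A ^ 2) := by
      have h5 : (N : ℝ) ^ (3 / 2 - c / A ^ 2) = (N : ℝ) ^ (1 : ℝ) *
          (N : ℝ) ^ (1 / 2 - c / A ^ 2) := by
        rw [← Real.rpow_add hN0r]
        congr 1
        ring
      rw [h5, Real.rpow_one]
      ring
    have h5 : (N : ℝ) ^ (1 - c / A ^ 2) * (8 * C * (√(N : ℝ) * Real.log N)) =
        8 * C * Real.log N * (N : ℝ) ^ (3 / 2 - c / A ^ 2) := by
      have h6 : (N : ℝ) ^ (3 / 2 - c / A ^ 2) = (N : ℝ) ^ (1 - c / A ^ 2) *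
          (N : ℝ) ^ ((1 : ℝ) / 2) := by
        rw [← Real.rpow_add hN0r]
        congr 1
        ring
      rw [h6, hsq]
      ring
    have h6 : (N : ℝ) ^ (3 / 2 - c / 2 / A ^ 2) =
        (N : ℝ) ^ (c / 2 / A ^ 2) * (N : ℝ) ^ (3 / 2 - c / A ^ 2) := by
      rw [← Real.rpow_add hN0r]
      congr 1
      ring
    rw [h6]
    have h7 : ((((Finset.Ioc N (2 * N)).filter Squarefree).card : ℕ) : ℝ) *
        (2 * (N : ℝ) ^ (1 / 2 - c / A ^ 2)) ≤ 2 * (N : ℝ) ^ (3 / 2 - c / A ^ 2) := by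
      rw [← h4]
      exact mul_le_mul_of_nonneg_right hcard (by positivity)
    have h8 : 2 + 8 * C * Real.log N ≤ 20 * C * Real.log N := by
      have : 1 ≤ C * Real.log N := by nlinarith
      linarith
    calc _ ≤ 2 * (N : ℝ) ^ (3 / 2 - c / A ^ 2) +
          8 * C * Real.log N * (N : ℝ) ^ (3 / 2 - c / A ^ 2) := add_le_add h7 (hsum2.trans h5.le)
      _ = (2 + 8 * C * Real.log N) * (N : ℝ) ^ (3 / 2 - c / A ^ 2) := by ring
      _ ≤ (N : ℝ) ^ (c / 2 / A ^ 2) * (N : ℝ) ^ (3 / 2 - c / A ^ 2) :=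
          mul_le_mul_of_nonneg_right (h8.trans hlogC) hP0.le
  rcases le_total (3 / (2 * (k : ℝ) + 2) - ε) (c / 2 / (k : ℝ) ^ ((2 : ℝ) / 3)) with h | h
  · rw [max_eq_right h]
    exact hsecond
  · rw [max_eq_left h]
    have hpos : 0 < c / 2 / (k : ℝ) ^ ((2 : ℝ) / 3) := by positivity
    have h4 : ε < 3 / (2 * (k : ℝ) + 2) := by linarith
    have h5 : (k : ℝ) ≤ 3 / (2 * ε) := by
      rw [lt_div_iff₀ (by positivity)] at h4
      rw [le_div_iff₀ (by positivity)]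
      nlinarith
    refine (hN₂ N hNN2 k hk5 h5).trans (le_of_eq ?_)
    congr 1
    ring

end Pool.Agent.H45.AD
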