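import Pool.Agent.H13.AD.PD
import Pool.Agent.H13.AD.RT
import Pool.Agent.H13.AD.FS
import Pool.Agent.H14.AD.PK
import Pool.Agent.H14.AD.SC
import Pool.Agent.H14.AD.CL
import Pool.Agent.H14.AD.BL
import Pool.Agent.H14.AD.KB
import Pool.Agent.H31.AD.CO
import Pool.Agent.H31.AD.PI
import Pool.Agent.H26.AD.HR
import Pool.Agent.H26.AD.T1
import Pool.Agent.H51.AD.UN
import Pool.Agent.H51.AD.T2
import Pool.Agent.H45.AD.T6
import Pool.Agent.H45.AD.WI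

/-! Project AD: the assembly. -/

set_option autoImplicit false

namespace Pool.Agent.H45.AD

theorem all_UN : StmtUN := Pool.Agent.H51.AD.UN.t (Pool.Agent.H14.AD.KB.t (Pool.Agent.H14.AD.BL.t
  (wi Pool.Agent.H13.AD.FS.t Pool.Agent.H13.AD.RT.t Pool.Agent.H14.AD.CL.t
    (Pool.Agent.H31.AD.PI.t Pool.Agent.H13.AD.PD.t Pool.Agent.H31.AD.CO.t))))

theorem all_T2 : StmtT2 := Pool.Agent.H51.AD.T2.t all_UN Pool.Agent.H14.AD.SC.t
  Pool.Agent.H26.AD.HR.t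

theorem all_T3 : StmtT3 := t3 (Pool.Agent.H26.AD.T1.t all_UN SPf.sp Pool.Agent.H14.AD.PK.t
  Pool.Agent.H26.AD.HR.t)

end Pool.Agent.H45.AD
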