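import Pool.Agent.H45.AD.FinA
import Pool.Agent.H26.AD.PG
import Pool.Agent.H26.AD.S2
import Pool.Agent.H56.AD.CT
import Pool.Agent.H56.AD.RO
import Pool.Agent.H56.AD.DV
import Pool.Agent.H32.AD.BA
import Pool.Agent.H32.AD.AV

/-! Project AD: the assembly of the fourth part. -/

set_option autoImplicit false

namespace Pool.Agent.H45.AD

theorem all_CT : StmtCT := Pool.Agent.H56.AD.CT.t Pool.Agent.H56.AD.RO.t Pool.Agent.H56.AD.DV.t

theorem all_AV : StmtAV := Pool.Agent.H32.AD.AV.t Pool.Agent.H26.AD.PG.t Pool.Agent.H26.AD.S2.t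
  (Pool.Agent.H32.AD.BA.t all_CT) Pool.Agent.H26.AD.HR.t

theorem all_T6 : StmtT6 := t6 all_T3 all_AV

end Pool.Agent.H45.AD
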