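import Pool.Agent.H45.AD.Stm
import Pool.Agent.H45.PF.PVF

/-! The determinants vanish: real and `p`-adic smoothness. -/

set_option autoImplicit false

namespace Pool.Agent.H45.AD

open Polynomial Pool.Agent.W223.HZ Pool.Agent.W223.PL Pool.Agent.Q276.PL Pool.Agent.H45.PF

/-- the exponent of `p` -/
theorem exp_p (p a k m : ℕ) (D θ : ℝ) (hp : 1 < p) (hD : 1 < D) (hθ : 0 < θ)
    (ha : D ^ θ ≤ (p : ℝ) ^ a) : ∃ E : ℕ, (∀ u : ℕ, u ≤ m → E ≤ k * (m - u) + a * u ^ 2) ∧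
    (k * m : ℝ) * Real.log p - (k * Real.log p) ^ 2 / (4 * θ * Real.log D) ≤ E * Real.log p := by
  have hne : (Finset.range (m + 1)).Nonempty := ⟨0, by simp⟩
  obtain ⟨u₀, hu₀, hmin⟩ := Finset.exists_min_image (Finset.range (m + 1))
    (fun u => k * (m - u) + a * u ^ 2) hne
  rw [Finset.mem_range] at hu₀
  refine ⟨k * (m - u₀) + a * u₀ ^ 2, fun u hu => hmin u (by rw [Finset.mem_range]; omega), ?_⟩
  have hp0 : (0 : ℝ) < p := by exact_mod_cast (by omega : 0 < p)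
  have hlp : 0 < Real.log p := Real.log_pos (by exact_mod_cast hp)
  have hlD : 0 < Real.log D := Real.log_pos hD
  have hα : θ * Real.log D ≤ a * Real.log p := by
    have h1 := Real.log_le_log (Real.rpow_pos_of_pos (by linarith) _) ha
    rwa [Real.log_rpow (by linarith), Real.log_pow] at h1
  obtain ⟨α, hαd⟩ : ∃ α, α = a * Real.log p := ⟨_, rfl⟩
  obtain ⟨κ, hκ⟩ : ∃ κ, κ = k * Real.log p := ⟨_, rfl⟩
  have hα0 : 0 < θ * Real.log D := by positivity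
  have hcast : ((k * (m - u₀) + a * u₀ ^ 2 : ℕ) : ℝ) = k * (m - u₀) + a * (u₀ : ℝ) ^ 2 := by
    rw [Nat.cast_add, Nat.cast_mul, Nat.cast_sub (by omega)]
    push_cast
    ring
  rw [hcast]
  have h2 : κ * u₀ ≤ α * (u₀ : ℝ) ^ 2 + κ ^ 2 / (4 * θ * Real.log D) := by
    have h3 : κ * u₀ ≤ θ * Real.log D * (u₀ : ℝ) ^ 2 + κ ^ 2 / (4 * (θ * Real.log D)) := by
      have h4 : 0 ≤ (2 * (θ * Real.log D) * u₀ - κ) ^ 2 / (4 * (θ * Real.log D)) := by positivity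
      have h5 : (2 * (θ * Real.log D) * u₀ - κ) ^ 2 / (4 * (θ * Real.log D)) =
          θ * Real.log D * (u₀ : ℝ) ^ 2 + κ ^ 2 / (4 * (θ * Real.log D)) - κ * u₀ := by
        field_simp
        ring
      linarith
    rw [← mul_assoc] at h3
    have h6 : θ * Real.log D * (u₀ : ℝ) ^ 2 ≤ α * (u₀ : ℝ) ^ 2 := by
      apply mul_le_mul_of_nonneg_right _ (by positivity)
      rw [hαd]
      exact hα
    linarith
  rw [← hκ]
  have h7 : (k * m : ℝ) * Real.log p = κ * m := by rw [hκ]; ring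
  have h8 : ((k : ℝ) * (m - u₀) + a * (u₀ : ℝ) ^ 2) * Real.log p =
      κ * m - κ * u₀ + α * (u₀ : ℝ) ^ 2 := by
    rw [hκ, hαd]
    ring
  rw [h7, h8]
  linarith

/-- all the primes together -/
theorem exp_all (Sp : Finset ℕ) (a kk : ℕ → ℕ) (m : ℕ) (D θ σ : ℝ) (hD : 1 < D) (hθ : 0 < θ)
    (hσ : 0 ≤ σ) (hp : ∀ p ∈ Sp, p.Prime) (ha : ∀ p ∈ Sp, D ^ θ ≤ (p : ℝ) ^ a p)
    (hq : ∏ p ∈ Sp, (p : ℝ) ^ kk p ≤ D ^ (2 * σ)) : ∃ E : ℕ → ℕ,
    (∀ p ∈ Sp, ∀ u : ℕ, u ≤ m → E p ≤ kk p * (m - u) + a p * u ^ 2) ∧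
    (∏ p ∈ Sp, (p : ℝ) ^ kk p) ^ m * D ^ (-(σ ^ 2 / θ)) ≤ ∏ p ∈ Sp, (p : ℝ) ^ E p := by
  have h1 : ∀ p ∈ Sp, ∃ E : ℕ, (∀ u : ℕ, u ≤ m → E ≤ kk p * (m - u) + a p * u ^ 2) ∧
    (kk p * m : ℝ) * Real.log p - (kk p * Real.log p) ^ 2 / (4 * θ * Real.log D) ≤
      E * Real.log p := fun p hps => exp_p p (a p) (kk p) m D θ (hp p hps).one_lt hD hθ (ha p hps)
  choose! E hE1 hE2 using h1
  refine ⟨E, hE1, ?_⟩
  have hD0 : 0 < D := by linarith
  have hlD : 0 < Real.log D := Real.log_pos hD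
  have hpp : ∀ p ∈ Sp, (0 : ℝ) < p := fun p hps => by exact_mod_cast (hp p hps).pos
  have hlp : ∀ p ∈ Sp, 0 ≤ Real.log p := fun p hps =>
    Real.log_nonneg (by exact_mod_cast (hp p hps).one_lt.le)
  have hprod : ∀ F : ℕ → ℕ, ∏ p ∈ Sp, (p : ℝ) ^ F p = Real.exp (∑ p ∈ Sp, F p * Real.log p) := by
    intro F
    rw [Real.exp_sum]
    apply Finset.prod_congr rfl
    intro p hps
    rw [← Real.log_pow, Real.exp_log (pow_pos (hpp p hps) _)]
  obtain ⟨q, hq'⟩ : ∃ q, q = ∑ p ∈ Sp, (kk p : ℝ) * Real.log p := ⟨_, rfl⟩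
  have hq0 : 0 ≤ q := by
    rw [hq']
    exact Finset.sum_nonneg fun p hps => mul_nonneg (Nat.cast_nonneg _) (hlp p hps)
  have hqle : q ≤ 2 * σ * Real.log D := by
    rw [hprod, ← hq', Real.rpow_def_of_pos hD0, Real.exp_le_exp] at hq
    linarith
  rw [hprod, hprod, ← hq', ← Real.exp_nat_mul, Real.rpow_def_of_pos hD0, ← Real.exp_add,
    Real.exp_le_exp]
  have h2 : ∑ p ∈ Sp, ((kk p * m : ℝ) * Real.log p -
      (kk p * Real.log p) ^ 2 / (4 * θ * Real.log D)) ≤ ∑ p ∈ Sp, (E p : ℝ) * Real.log p :=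
    Finset.sum_le_sum hE2
  refine le_trans ?_ h2
  rw [Finset.sum_sub_distrib, ← Finset.sum_div]
  have h3 : ∑ p ∈ Sp, (kk p * m : ℝ) * Real.log p = m * q := by
    rw [hq', Finset.mul_sum]
    exact Finset.sum_congr rfl fun p _ => by ring
  have h4 : ∑ p ∈ Sp, (kk p * Real.log p) ^ 2 ≤ q ^ 2 := by
    have h0 : ∀ p ∈ Sp, 0 ≤ (kk p : ℝ) * Real.log p := fun p hps =>
      mul_nonneg (Nat.cast_nonneg _) (hlp p hps)
    calc ∑ p ∈ Sp, ((kk p : ℝ) * Real.log p) ^ 2 ≤ ∑ p ∈ Sp, (kk p : ℝ) * Real.log p * q := by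
          apply Finset.sum_le_sum
          intro p hps
          rw [sq]
          apply mul_le_mul_of_nonneg_left _ (h0 p hps)
          rw [hq']
          exact Finset.single_le_sum h0 hps
      _ = q ^ 2 := by rw [← Finset.sum_mul, ← hq', sq]
  have h5 : (∑ p ∈ Sp, (kk p * Real.log p) ^ 2) / (4 * θ * Real.log D) ≤
      Real.log D * (σ ^ 2 / θ) := by
    rw [div_le_iff₀ (by positivity)]
    refine h4.trans ?_
    have h6 : Real.log D * (σ ^ 2 / θ) * (4 * θ * Real.log D) = (2 * σ * Real.log D) ^ 2 := by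
      field_simp
      ring
    rw [h6]
    exact pow_le_pow_left₀ hq0 hqle 2
  rw [h3]
  linarith

/-- the distance to the square root -/
theorem close {D V d₀ d P Q q : ℝ} (hD : 1 ≤ D) (hV : 1 ≤ V) (h0 : D ≤ d₀) (h1 : D ≤ d)
    (hQ : V ≤ Q) (hP : 0 ≤ P) (h : |P ^ 2 - d * Q ^ 2| ≤ D ^ ((1 : ℝ) / 8) * q) :
    |P / (Q * √d₀) - √(d / d₀)| ≤ q * (D ^ ((7 : ℝ) / 8) * V ^ 2)⁻¹ := by
  have hD0 : 0 < D := by linarith
  have hd0 : 0 < d := by linarith
  have hd00 : 0 < d₀ := by linarith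
  have hQ0 : 0 < Q := by linarith
  have hs : 0 < √d := Real.sqrt_pos.mpr hd0
  have hs0 : 0 < √d₀ := Real.sqrt_pos.mpr hd00
  have hsq : √d ^ 2 = d := Real.sq_sqrt hd0.le
  have hsD : √D ≤ √d := Real.sqrt_le_sqrt h1
  have hsD0 : √D ≤ √d₀ := Real.sqrt_le_sqrt h0
  have hsDD : √D * √D = D := Real.mul_self_sqrt hD0.le
  have hsDp : 0 < √D := Real.sqrt_pos.mpr hD0
  have e1 : P / (Q * √d₀) - √(d / d₀) = (P ^ 2 - d * Q ^ 2) / ((Q * √d₀) * (P + Q * √d)) := by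
    rw [Real.sqrt_div hd0.le]
    have h2 : 0 < P + Q * √d := by positivity
    rw [eq_div_iff (by positivity)]
    have h3 : (P / (Q * √d₀) - √d / √d₀) * ((Q * √d₀) * (P + Q * √d)) =
        (P - Q * √d) * (P + Q * √d) := by
      field_simp
    rw [h3]
    linear_combination (-Q ^ 2) * hsq
  have h8 : 0 < D ^ ((1 : ℝ) / 8) := Real.rpow_pos_of_pos hD0 _
  have hnum : 0 ≤ D ^ ((1 : ℝ) / 8) * q := (abs_nonneg _).trans h
  have hden : D * V ^ 2 ≤ (Q * √d₀) * (P + Q * √d) := by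
    have h2 : V * √D ≤ Q * √d₀ := mul_le_mul hQ hsD0 hsDp.le hQ0.le
    have h3 : V * √D ≤ P + Q * √d := by
      have : V * √D ≤ Q * √d := mul_le_mul hQ hsD hsDp.le hQ0.le
      linarith
    calc D * V ^ 2 = (V * √D) * (V * √D) := by linear_combination (-V ^ 2) * hsDD
      _ ≤ _ := mul_le_mul h2 h3 (by positivity) (by positivity)
  rw [e1, abs_div, abs_of_pos (lt_of_lt_of_le (by positivity) hden)]
  calc |P ^ 2 - d * Q ^ 2| / ((Q * √d₀) * (P + Q * √d)) ≤ (D ^ ((1 : ℝ) / 8) * q) / (D * V ^ 2) := by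
        apply div_le_div₀ hnum h (by positivity) hden
    _ = q * (D ^ ((7 : ℝ) / 8) * V ^ 2)⁻¹ := by
        have h4 : D = D ^ ((7 : ℝ) / 8) * D ^ ((1 : ℝ) / 8) := by
          rw [← Real.rpow_add hD0]
          norm_num
        have h5 : 0 < D ^ ((7 : ℝ) / 8) := Real.rpow_pos_of_pos hD0 _
        have h6 : D ^ ((1 : ℝ) / 8) * q / (D * V ^ 2) =
            D ^ ((1 : ℝ) / 8) * q / ((D ^ ((7 : ℝ) / 8) * D ^ ((1 : ℝ) / 8)) * V ^ 2) := by
          rw [← h4]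
        rw [h6]
        field_simp

/-- the inequality between the parameters -/
theorem parA {m : ℕ} {D V σ S ε L q e : ℝ} (hm : 1 ≤ m) (hD : 1 < D) (hε : 0 < ε)
    (hσ : 0 ≤ σ) (hσm : 32 / ε * (2 * σ + 1) ^ 2 ≤ m) (hV : 1 ≤ V) (hVD : V ≤ D ^ σ)
    (hq1 : 1 ≤ q) (hqD : q ≤ D ^ (2 * σ)) (he : e = q * (D ^ ((3 : ℝ) / 4) * V ^ 2)⁻¹)
    (hS : D ^ ε ≤ S) (hL : L = D ^ (1 / (8 * (m : ℝ)))) (u : ℤ) (hu : |u| ≤ m) :
    e ^ ((m : ℤ) - u) * L ^ (m * (m - 1)) * (L / S) ^ (u.natAbs ^ 2) ≤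
      e ^ m * D ^ ((m : ℝ) / 8 + m / 64) := by
  have hD0 : 0 < D := by linarith
  have hm0 : (0 : ℝ) < m := by exact_mod_cast hm
  have hm1 : (1 : ℝ) ≤ m := by exact_mod_cast hm
  have hσ1 : (1 : ℝ) ≤ (2 * σ + 1) ^ 2 := by nlinarith
  have hm32 : 32 / ε ≤ m := by
    refine le_trans ?_ hσm
    have : 0 < 32 / ε := by positivity
    nlinarith
  have hεm : 32 ≤ ε * m := by
    rw [div_le_iff₀ hε] at hm32
    linarith
  obtain ⟨k, hk⟩ : ∃ k, k = u.natAbs := ⟨_, rfl⟩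
  rw [← hk]
  have hq0 : 0 < q := by linarith
  have he0 : 0 < e := by rw [he]; positivity
  -- the size of `e`
  have hlD : 0 < Real.log D := Real.log_pos hD
  have hlV0 : 0 ≤ Real.log V := Real.log_nonneg hV
  have hlV1 : Real.log V ≤ σ * Real.log D := by
    rw [← Real.log_rpow hD0]
    exact Real.log_le_log (by linarith) hVD
  have hlq0 : 0 ≤ Real.log q := Real.log_nonneg hq1
  have hlq1 : Real.log q ≤ 2 * σ * Real.log D := by
    rw [← Real.log_rpow hD0]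
    exact Real.log_le_log hq0 hqD
  have hle : Real.log e = Real.log q - (3 / 4 * Real.log D + 2 * Real.log V) := by
    rw [he, Real.log_mul hq0.ne' (by positivity), Real.log_inv, Real.log_mul (by positivity)
      (by positivity), Real.log_rpow hD0, Real.log_pow]
    push_cast
    ring
  have habs : |Real.log e| ≤ (2 * σ + 1) * Real.log D := by
    rw [abs_le, hle]
    constructor <;> nlinarith
  -- the three factors
  have e1 : e ^ ((m : ℤ) - u) ≤ e ^ m * D ^ ((2 * σ + 1) * k) := by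
    rw [sub_eq_add_neg, zpow_add₀ he0.ne', zpow_natCast]
    apply mul_le_mul_of_nonneg_left _ (by positivity)
    have h1 : e ^ (-u) = Real.exp (-(u : ℝ) * Real.log e) := by
      rw [← Real.rpow_intCast, Real.rpow_def_of_pos he0]
      push_cast
      ring_nf
    rw [h1, Real.rpow_def_of_pos hD0, Real.exp_le_exp]
    have h2 : (k : ℝ) = |(u : ℝ)| := by
      rw [hk, Nat.cast_natAbs, Int.cast_abs]
    calc -(u : ℝ) * Real.log e ≤ |(-(u : ℝ)) * Real.log e| := le_abs_self _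
      _ = k * |Real.log e| := by rw [abs_mul, abs_neg, h2]
      _ ≤ k * ((2 * σ + 1) * Real.log D) := mul_le_mul_of_nonneg_left habs (Nat.cast_nonneg k)
      _ = _ := by ring
  have hL1 : 1 ≤ L := by rw [hL]; exact Real.one_le_rpow hD.le (by positivity)
  have e2 : L ^ (m * (m - 1)) ≤ D ^ ((m : ℝ) / 8) := by
    calc L ^ (m * (m - 1)) ≤ L ^ (m * m) :=
          pow_le_pow_right₀ hL1 (Nat.mul_le_mul_left m (Nat.sub_le m 1))
      _ = D ^ ((m : ℝ) / 8) := by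
          rw [hL, ← Real.rpow_natCast, ← Real.rpow_mul hD0.le]
          congr 1
          push_cast
          field_simp
  have e3 : (L / S) ^ (k ^ 2) ≤ D ^ (-(ε / 2) * (k : ℝ) ^ 2) := by
    have h1 : L / S ≤ D ^ (-(ε / 2)) := by
      calc L / S ≤ L / D ^ ε := div_le_div_of_nonneg_left (by linarith) (by positivity) hS
        _ = D ^ (1 / (8 * (m : ℝ)) - ε) := by rw [hL, Real.rpow_sub hD0]
        _ ≤ D ^ (-(ε / 2)) := by
            apply Real.rpow_le_rpow_of_exponent_le hD.le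
            have h2 : 1 / (8 * (m : ℝ)) ≤ ε / 2 := by
              rw [div_le_div_iff₀ (by positivity) (by norm_num)]
              nlinarith
            linarith
    have hS0 : 0 < S := lt_of_lt_of_le (Real.rpow_pos_of_pos hD0 _) hS
    calc (L / S) ^ (k ^ 2) ≤ (D ^ (-(ε / 2))) ^ (k ^ 2) :=
          pow_le_pow_left₀ (by positivity) h1 _
      _ = D ^ (-(ε / 2) * (k : ℝ) ^ 2) := by
          rw [← Real.rpow_natCast, ← Real.rpow_mul hD0.le]
          push_cast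
          rfl
  calc e ^ ((m : ℤ) - u) * L ^ (m * (m - 1)) * (L / S) ^ (k ^ 2)
      ≤ (e ^ m * D ^ ((2 * σ + 1) * k)) * D ^ ((m : ℝ) / 8) * D ^ (-(ε / 2) * (k : ℝ) ^ 2) := by
        have hS0 : 0 < S := lt_of_lt_of_le (Real.rpow_pos_of_pos hD0 _) hS
        gcongr
    _ = e ^ m * D ^ ((2 * σ + 1) * k + (m : ℝ) / 8 + -(ε / 2) * (k : ℝ) ^ 2) := by
        rw [Real.rpow_add hD0, Real.rpow_add hD0]
        ring
    _ ≤ e ^ m * D ^ ((m : ℝ) / 8 + m / 64) := by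
        apply mul_le_mul_of_nonneg_left _ (by positivity)
        apply Real.rpow_le_rpow_of_exponent_le hD.le
        have h4 : (2 * σ + 1) * k - ε / 2 * (k : ℝ) ^ 2 ≤ (2 * σ + 1) ^ 2 / (2 * ε) := by
          rw [le_div_iff₀ (by positivity)]
          nlinarith [sq_nonneg (ε * k - (2 * σ + 1))]
        have h5 : (2 * σ + 1) ^ 2 / (2 * ε) ≤ m / 64 := by
          have h6 : 32 / ε * (2 * σ + 1) ^ 2 = 64 * ((2 * σ + 1) ^ 2 / (2 * ε)) := by
            field_simp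
            ring
          rw [h6] at hσm
          linarith
        linarith

end Pool.Agent.H45.AD
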