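import Pool.Agent.H45.AD.Stm

/-! SP: for almost all `d` there are many small primes which split in `ℚ(√d)`
(second moment of Jacobi symbols). -/

set_option autoImplicit false

namespace Pool.Agent.H45.AD.SPf

open Finset

theorem sum_window (m : ℕ) [NeZero m] (f : ZMod m → ℝ) (a : ℕ) :
    ∑ j ∈ range m, f ((a + j : ℕ) : ZMod m) = ∑ x : ZMod m, f x := by
  have h1 : ∑ j ∈ range m, f ((a + j : ℕ) : ZMod m) =
      ∑ j ∈ range m, (fun x : ZMod m => f ((a : ZMod m) + x)) ((j : ℕ) : ZMod m) := by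
    apply sum_congr rfl
    intro j _
    simp
  rw [h1]
  have h2 : ∀ g : ZMod m → ℝ, ∑ j ∈ range m, g ((j : ℕ) : ZMod m) = ∑ x : ZMod m, g x := by
    intro g
    apply Finset.sum_bij (fun j _ => ((j : ℕ) : ZMod m))
    · intro j _
      exact mem_univ _
    · intro i hi j hj hij
      rw [ZMod.natCast_eq_natCast_iff'] at hij
      rwa [Nat.mod_eq_of_lt (mem_range.1 hi), Nat.mod_eq_of_lt (mem_range.1 hj)] at hij
    · intro x _
      exact ⟨x.val, mem_range.2 (ZMod.val_lt x), ZMod.natCast_zmod_val x⟩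
    · intro j _
      rfl
  refine (h2 (fun x : ZMod m => f ((a : ZMod m) + x))).trans ?_
  exact Equiv.sum_comp (Equiv.addLeft (a : ZMod m)) f

theorem per_sum (m : ℕ) [NeZero m] (f : ZMod m → ℝ) (h0 : ∑ x, f x = 0)
    (h1 : ∀ x, |f x| ≤ 1) :
    ∀ n a : ℕ, |∑ j ∈ range n, f ((a + j : ℕ) : ZMod m)| ≤ m := by
  intro n
  induction n using Nat.strong_induction_on with
  | _ n ih =>
    intro a
    by_cases hn : n < m
    · calc |∑ j ∈ range n, f ((a + j : ℕ) : ZMod m)|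
          ≤ ∑ j ∈ range n, |f ((a + j : ℕ) : ZMod m)| := abs_sum_le_sum_abs _ _
        _ ≤ ∑ j ∈ range n, (1:ℝ) := sum_le_sum (fun j _ => h1 _)
        _ = n := by simp
        _ ≤ m := by exact_mod_cast hn.le
    · push Not at hn
      obtain ⟨k, rfl⟩ := Nat.exists_eq_add_of_le hn
      rw [sum_range_add, sum_window, h0, zero_add]
      have h3 := ih k (by have := NeZero.pos m; omega) (a + m)
      have h4 : ∑ x ∈ range k, f ((a + (m + x) : ℕ) : ZMod m) =
          ∑ j ∈ range k, f ((a + m + j : ℕ) : ZMod m) := by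
        apply sum_congr rfl
        intro j _
        rw [add_assoc]
      rw [h4]
      exact h3

/-- two different odd primes: the product of the symbols has small sums -/
theorem pair_sum (p q : ℕ) (hp : p.Prime) (hq : q.Prime) (hp2 : p ≠ 2) (hpq : p ≠ q)
    (a n : ℕ) :
    |∑ j ∈ range n, ((jacobiSym ((a + j : ℕ) : ℤ) p : ℤ) : ℝ) * (jacobiSym ((a + j : ℕ) : ℤ) q : ℤ)|
      ≤ p * q := by
  have : Fact p.Prime := ⟨hp⟩
  have : Fact q.Prime := ⟨hq⟩
  have hco : Nat.Coprime p q := (Nat.coprime_primes hp hq).2 hpq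
  set e := ZMod.chineseRemainder hco with he
  set f : ZMod (p * q) → ℝ := fun x =>
    ((quadraticChar (ZMod p) (e x).1 : ℤ) : ℝ) * (quadraticChar (ZMod q) (e x).2 : ℤ) with hf
  have : NeZero (p * q) := ⟨Nat.mul_ne_zero hp.ne_zero hq.ne_zero⟩
  have h0 : ∑ x, f x = 0 := by
    have h1 : ∑ x, f x = ∑ w : ZMod p × ZMod q,
        ((quadraticChar (ZMod p) w.1 : ℤ) : ℝ) * (quadraticChar (ZMod q) w.2 : ℤ) :=
      Equiv.sum_comp e.toEquiv
        (fun w : ZMod p × ZMod q =>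
          ((quadraticChar (ZMod p) w.1 : ℤ) : ℝ) * (quadraticChar (ZMod q) w.2 : ℤ))
    rw [h1, Fintype.sum_prod_type]
    have h2 : ∑ x : ZMod p, ((quadraticChar (ZMod p) x : ℤ) : ℝ) = 0 := by
      have h3 : ∑ x : ZMod p, quadraticChar (ZMod p) x = 0 :=
        quadraticChar_sum_zero (by rw [ZMod.ringChar_zmod_n]; exact hp2)
      exact_mod_cast h3
    calc ∑ x : ZMod p, ∑ y : ZMod q,
          ((quadraticChar (ZMod p) x : ℤ) : ℝ) * (quadraticChar (ZMod q) y : ℤ)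
        = ∑ x : ZMod p, ((quadraticChar (ZMod p) x : ℤ) : ℝ) *
            ∑ y : ZMod q, ((quadraticChar (ZMod q) y : ℤ) : ℝ) := by
          apply sum_congr rfl
          intro x _
          rw [mul_sum]
      _ = (∑ x : ZMod p, ((quadraticChar (ZMod p) x : ℤ) : ℝ)) *
            ∑ y : ZMod q, ((quadraticChar (ZMod q) y : ℤ) : ℝ) := by rw [sum_mul]
      _ = 0 := by rw [h2, zero_mul]
  have hch : ∀ (r : ℕ) [Fact r.Prime] (x : ZMod r), |((quadraticChar (ZMod r) x : ℤ) : ℝ)| ≤ 1 := by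
    intro r _ x
    by_cases hx : x = 0
    · simp [hx]
    · rcases quadraticChar_dichotomy hx with h | h <;> simp [h]
  have h1 : ∀ x, |f x| ≤ 1 := by
    intro x
    simp only [hf, abs_mul]
    exact mul_le_one₀ (hch p _) (abs_nonneg _) (hch q _)
  have h2 := per_sum (p * q) f h0 h1 n a
  have h3 : ∑ j ∈ range n, f ((a + j : ℕ) : ZMod (p * q)) =
      ∑ j ∈ range n, ((jacobiSym ((a + j : ℕ) : ℤ) p : ℤ) : ℝ) *
        (jacobiSym ((a + j : ℕ) : ℤ) q : ℤ) := by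
    apply sum_congr rfl
    intro j _
    simp only [hf]
    rw [map_natCast, ← jacobiSym.legendreSym.to_jacobiSym, ← jacobiSym.legendreSym.to_jacobiSym]
    simp [legendreSym]
  rw [← h3]
  calc _ ≤ ((p * q : ℕ) : ℝ) := h2
    _ = p * q := by push_cast; ring

theorem jac_sq (a : ℤ) (p : ℕ) : ((jacobiSym a p : ℤ) : ℝ) * (jacobiSym a p : ℤ) ≤ 1 := by
  rcases jacobiSym.trichotomy a p with h | h | h <;> simp [h]

/-- the odd primes up to `Y` -/
def PP (Y : ℕ) : Finset ℕ := (Finset.range (Y + 1)).filter fun p => p.Prime ∧ p ≠ 2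

theorem mem_PP {Y p : ℕ} : p ∈ PP Y ↔ p ≤ Y ∧ p.Prime ∧ p ≠ 2 := by
  simp [PP, Nat.lt_succ_iff]

/-- the second moment -/
theorem second (Y N : ℕ) :
    ∑ j ∈ range N, (∑ p ∈ PP Y, ((jacobiSym ((N + 1 + j : ℕ) : ℤ) p : ℤ) : ℝ)) ^ 2 ≤
      (PP Y).card * N + ((PP Y).card : ℝ) ^ 2 * (Y : ℝ) ^ 2 := by
  have h1 : ∑ j ∈ range N, (∑ p ∈ PP Y, ((jacobiSym ((N + 1 + j : ℕ) : ℤ) p : ℤ) : ℝ)) ^ 2 =
      ∑ p ∈ PP Y, ∑ q ∈ PP Y, ∑ j ∈ range N, ((jacobiSym ((N + 1 + j : ℕ) : ℤ) p : ℤ) : ℝ) *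
        (jacobiSym ((N + 1 + j : ℕ) : ℤ) q : ℤ) := by
    calc _ = ∑ j ∈ range N, ∑ p ∈ PP Y, ∑ q ∈ PP Y,
          ((jacobiSym ((N + 1 + j : ℕ) : ℤ) p : ℤ) : ℝ) *
            (jacobiSym ((N + 1 + j : ℕ) : ℤ) q : ℤ) := by
          apply sum_congr rfl
          intro j _
          rw [sq, sum_mul_sum]
      _ = _ := by
          rw [sum_comm]
          apply sum_congr rfl
          intro p _
          rw [sum_comm]
  rw [h1]
  have h2 : ∀ p ∈ PP Y, ∑ q ∈ PP Y, ∑ j ∈ range N,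
      ((jacobiSym ((N + 1 + j : ℕ) : ℤ) p : ℤ) : ℝ) * (jacobiSym ((N + 1 + j : ℕ) : ℤ) q : ℤ) ≤
      N + (PP Y).card * (Y : ℝ) ^ 2 := by
    intro p hp
    have h3 : ∀ q ∈ PP Y, ∑ j ∈ range N,
      ((jacobiSym ((N + 1 + j : ℕ) : ℤ) p : ℤ) : ℝ) * (jacobiSym ((N + 1 + j : ℕ) : ℤ) q : ℤ) ≤
      (if q = p then (N : ℝ) else 0) + (Y : ℝ) ^ 2 := by
      intro q hq
      by_cases hpq : q = p
      · subst hpq
        rw [if_pos rfl]
        calc _ ≤ ∑ j ∈ range N, (1 : ℝ) := sum_le_sum (fun j _ => jac_sq _ _)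
          _ = N := by simp
          _ ≤ N + (Y : ℝ) ^ 2 := by nlinarith [sq_nonneg (Y : ℝ)]
      · rw [if_neg hpq, zero_add]
        rw [mem_PP] at hp hq
        calc _ ≤ |∑ j ∈ range N, ((jacobiSym ((N + 1 + j : ℕ) : ℤ) p : ℤ) : ℝ) *
              (jacobiSym ((N + 1 + j : ℕ) : ℤ) q : ℤ)| := le_abs_self _
          _ ≤ (p : ℝ) * q := pair_sum p q hp.2.1 hq.2.1 hp.2.2 (Ne.symm hpq) _ _
          _ ≤ (Y : ℝ) * Y := by
              have h5 : (p : ℝ) ≤ Y := by exact_mod_cast hp.1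
              have h6 : (q : ℝ) ≤ Y := by exact_mod_cast hq.1
              gcongr
          _ = (Y : ℝ) ^ 2 := by ring
    calc _ ≤ ∑ q ∈ PP Y, ((if q = p then (N : ℝ) else 0) + (Y : ℝ) ^ 2) := sum_le_sum h3
      _ = N + (PP Y).card * (Y : ℝ) ^ 2 := by
          rw [sum_add_distrib, sum_ite_eq' (PP Y) p, if_pos hp]
          simp
  calc _ ≤ ∑ p ∈ PP Y, ((N : ℝ) + (PP Y).card * (Y : ℝ) ^ 2) := sum_le_sum h2
    _ = (PP Y).card * N + ((PP Y).card : ℝ) ^ 2 * (Y : ℝ) ^ 2 := by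
        rw [sum_const, nsmul_eq_mul]
        ring

theorem two_pow_omega (d : ℕ) (hd : d ≠ 0) : 2 ^ d.primeFactors.card ≤ d := by
  have h1 : 2 ^ d.primeFactors.card ≤ ∏ p ∈ d.primeFactors, p :=
    Finset.pow_card_le_prod _ _ _ (fun p hp => (Nat.prime_of_mem_primeFactors hp).two_le)
  exact h1.trans (Nat.le_of_dvd (Nat.pos_of_ne_zero hd) (Nat.prod_primeFactors_dvd d))

/-- the sum of the symbols over the primes -/
theorem sum_le (Y d : ℕ) (hd : d ≠ 0) :
    ∑ p ∈ PP Y, ((jacobiSym ((d : ℕ) : ℤ) p : ℤ) : ℝ) ≤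
      2 * ((spl d Y).card : ℝ) + d.primeFactors.card - (PP Y).card := by
  classical
  have h1 : ∀ p ∈ PP Y, ((jacobiSym ((d : ℕ) : ℤ) p : ℤ) : ℝ) ≤
      2 * (if p ∈ spl d Y then (1 : ℝ) else 0) + (if p ∈ d.primeFactors then (1 : ℝ) else 0) - 1 := by
    intro p hp
    have hp' := mem_PP.1 hp
    have : Fact p.Prime := ⟨hp'.2.1⟩
    by_cases hpd : p ∣ d
    · have h2 : p ∈ d.primeFactors := Nat.mem_primeFactors.2 ⟨hp'.2.1, hpd, hd⟩
      have h3 : jacobiSym ((d : ℕ) : ℤ) p = 0 := by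
        rw [← jacobiSym.legendreSym.to_jacobiSym, legendreSym.eq_zero_iff]
        have := (ZMod.natCast_eq_zero_iff d p).2 hpd
        simpa using this
      rw [h3, if_pos h2]
      have : (0 : ℝ) ≤ (if p ∈ spl d Y then (1 : ℝ) else 0) := by split_ifs <;> norm_num
      push_cast
      linarith
    · have h2 : p ∉ d.primeFactors := fun h => hpd (Nat.dvd_of_mem_primeFactors h)
      rw [if_neg h2]
      by_cases hs : IsSquare (d : ZMod p)
      · have h3 : p ∈ spl d Y := by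
          simp only [spl, mem_filter, mem_range, Nat.lt_succ_iff]
          exact ⟨hp'.1, hp'.2.1, hp'.2.2, hpd, hs⟩
        rw [if_pos h3]
        rcases jacobiSym.trichotomy (d : ℤ) p with h | h | h <;> rw [h] <;> norm_num
      · have h3 : jacobiSym ((d : ℕ) : ℤ) p = -1 := by
          rw [← jacobiSym.legendreSym.to_jacobiSym, legendreSym.eq_neg_one_iff]
          simpa using hs
        rw [h3]
        have : (0 : ℝ) ≤ (if p ∈ spl d Y then (1 : ℝ) else 0) := by split_ifs <;> norm_num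
        push_cast
        linarith
  calc _ ≤ ∑ p ∈ PP Y, (2 * (if p ∈ spl d Y then (1 : ℝ) else 0) +
        (if p ∈ d.primeFactors then (1 : ℝ) else 0) - 1) := sum_le_sum h1
    _ = 2 * (((PP Y).filter (fun p => p ∈ spl d Y)).card : ℝ) +
        (((PP Y).filter (fun p => p ∈ d.primeFactors)).card : ℝ) - (PP Y).card := by
        rw [sum_sub_distrib, sum_add_distrib, ← mul_sum, sum_boole, sum_boole]
        simp
    _ ≤ _ := by
        have h5 : (((PP Y).filter (fun p => p ∈ spl d Y)).card : ℝ) ≤ (spl d Y).card := by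
          exact_mod_cast card_le_card (fun p hp => (mem_filter.1 hp).2)
        have h6 : (((PP Y).filter (fun p => p ∈ d.primeFactors)).card : ℝ) ≤
            d.primeFactors.card := by
          exact_mod_cast card_le_card (fun p hp => (mem_filter.1 hp).2)
        linarith

/-- Chebyshev -/
theorem cheb (Y : ℕ) (t : ℝ) (ht : 1000 ≤ t) (hY : (Y : ℝ) = t ^ 20) :
    t ^ 18 ≤ ((PP Y).card : ℝ) := by
  have ht0 : 0 < t := by linarith
  have h1 : (Nat.primeCounting Y : ℝ) ≤ (PP Y).card + 1 := by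
    have h2 : Nat.primeCounting Y = ((range (Y + 1)).filter Nat.Prime).card := by
      rw [Nat.primeCounting, Nat.primeCounting', Nat.count_eq_card_filter_range]
    have h3 : (range (Y + 1)).filter Nat.Prime ⊆ insert 2 (PP Y) := by
      intro p hp
      rw [mem_filter, mem_range] at hp
      by_cases h : p = 2
      · simp [h]
      · exact mem_insert_of_mem (mem_PP.2 ⟨by omega, hp.2, h⟩)
    have h4 := (card_le_card h3).trans (card_insert_le _ _)
    rw [h2]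
    exact_mod_cast h4
  have h2 := Chebyshev.psi_ge Y
  have h3 := Chebyshev.psi_le_primeCounting_mul_log Y
  have h4 : Real.log (Y : ℝ) ≤ 20 * t := by
    rw [hY, Real.log_pow]
    have := Real.log_le_sub_one_of_pos ht0
    push_cast
    linarith
  have hlog0 : 0 ≤ Real.log (Y : ℝ) := Real.log_natCast_nonneg Y
  have hY1 : (1 : ℝ) ≤ Y := by rw [hY]; exact one_le_pow₀ (by linarith)
  have h5 : Real.log ((Y : ℝ) + 1) ≤ 20 * t + 1 := by
    have h6 : Real.log ((Y : ℝ) + 1) ≤ Real.log ((Y : ℝ) * 2) :=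
      Real.log_le_log (by positivity) (by linarith)
    rw [Real.log_mul (by positivity) (by norm_num)] at h6
    have := Real.log_two_lt_d9
    linarith
  have h7 : (1 / 2 : ℝ) < Real.log 2 := by
    have := Real.log_two_gt_d9
    linarith
  have h8 : (Y : ℝ) / 2 - (20 * t + 1) ≤ (Nat.primeCounting Y : ℝ) * (20 * t) := by
    have h9 : (Nat.primeCounting Y : ℝ) * Real.log Y ≤ (Nat.primeCounting Y : ℝ) * (20 * t) := by
      gcongr
    have h10 : (Y : ℝ) * (1 / 2) ≤ Y * Real.log 2 := by gcongr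
    linarith
  have h9 : (Nat.primeCounting Y : ℝ) * (20 * t) ≤ ((PP Y).card + 1) * (20 * t) := by gcongr
  rw [hY] at h8
  have h10 : (1 : ℝ) ≤ t ^ 18 := one_le_pow₀ (by linarith)
  have h11 : t ≤ t ^ 19 := by
    calc t = t * 1 := by ring
      _ ≤ t * t ^ 18 := by gcongr
      _ = t ^ 19 := by ring
  have h12 : t ^ 20 ≥ 1000 * t ^ 19 := by
    calc t ^ 20 = t * t ^ 19 := by ring
      _ ≥ 1000 * t ^ 19 := by gcongr
  by_contra hcon
  push Not at hcon
  have h13 : (((PP Y).card : ℝ) + 1) * (20 * t) ≤ (t ^ 18 + 1) * (20 * t) := by gcongr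
  have h14 : (t ^ 18 + 1) * (20 * t) = 20 * t ^ 19 + 20 * t := by ring
  have h15 : (1 : ℝ) ≤ t ^ 19 := one_le_pow₀ (by linarith)
  linarith

theorem sp : StmtSP := by
  refine ⟨1000 ^ 20, ?_⟩
  intro Y N hY0 hYN hlog
  classical
  obtain ⟨t, ht⟩ : ∃ t : ℝ, t = (Y : ℝ) ^ ((1 : ℝ) / 20) := ⟨_, rfl⟩
  have hYt : (Y : ℝ) = t ^ 20 := by
    rw [ht, ← Real.rpow_natCast, ← Real.rpow_mul (by positivity)]
    norm_num
  have ht1 : 1000 ≤ t := by
    by_contra h
    push Not at h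
    have h0 : 0 ≤ t := by rw [ht]; positivity
    have h1 : t ^ 20 < 1000 ^ 20 := pow_lt_pow_left₀ h h0 (by norm_num)
    have h2 : ((1000 ^ 20 : ℕ) : ℝ) ≤ Y := by exact_mod_cast hY0
    rw [hYt] at h2
    push_cast at h2
    linarith
  clear hY0 ht
  have ht0 : 0 < t := by linarith
  have hpi := cheb Y t ht1 hYt
  have h34 : (Y : ℝ) ^ ((3 : ℝ) / 4) = t ^ 15 := by
    rw [hYt, ← Real.rpow_natCast, ← Real.rpow_natCast, ← Real.rpow_mul ht0.le]
    norm_num
  have h12 : (Y : ℝ) ^ (-(1 : ℝ) / 2) = (t ^ 10)⁻¹ := by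
    rw [hYt, ← Real.rpow_natCast, ← Real.rpow_natCast, ← Real.rpow_mul ht0.le,
      ← Real.rpow_neg ht0.le]
    norm_num
  rw [h34, h12]
  -- the bad set
  obtain ⟨B, hB⟩ : ∃ B : Finset ℕ,
    B = (range N).filter fun j => ((spl (N + 1 + j) Y).card : ℝ) < t ^ 15 := ⟨_, rfl⟩
  have hcard : {d : ℕ | N < d ∧ d ≤ 2 * N ∧ ((spl d Y).card : ℝ) < t ^ 15}.ncard ≤ B.card := by
    have h1 : {d : ℕ | N < d ∧ d ≤ 2 * N ∧ ((spl d Y).card : ℝ) < t ^ 15} ⊆
        ((B.image fun j => N + 1 + j : Finset ℕ) : Set ℕ) := by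
      intro d hd
      obtain ⟨h1, h2, h3⟩ := hd
      rw [Finset.mem_coe, mem_image]
      refine ⟨d - (N + 1), ?_, by omega⟩
      rw [hB, mem_filter, mem_range]
      have h4 : N + 1 + (d - (N + 1)) = d := by omega
      rw [h4]
      exact ⟨by omega, h3⟩
    calc _ ≤ ((B.image fun j => N + 1 + j : Finset ℕ) : Set ℕ).ncard :=
          Set.ncard_le_ncard h1 (Finset.finite_toSet _)
      _ = (B.image fun j => N + 1 + j).card := Set.ncard_coe_finset _
      _ ≤ B.card := card_image_le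
  have hcard' : ({d : ℕ | N < d ∧ d ≤ 2 * N ∧ ((spl d Y).card : ℝ) < t ^ 15}.ncard : ℝ) ≤
      B.card := by exact_mod_cast hcard
  refine hcard'.trans ?_
  obtain ⟨π, hπ⟩ : ∃ π : ℝ, π = ((PP Y).card : ℝ) := ⟨_, rfl⟩
  rw [← hπ] at hpi
  have hπ0 : 0 < π := lt_of_lt_of_le (by positivity) hpi
  have hN : t ^ 80 ≤ (N : ℝ) := by
    have h1 : ((Y ^ 4 : ℕ) : ℝ) ≤ N := by exact_mod_cast hYN
    push_cast at h1
    rw [hYt] at h1
    calc t ^ 80 = (t ^ 20) ^ 4 := by rw [← pow_mul]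
      _ ≤ (N : ℝ) := h1
  have hN1 : (1 : ℝ) ≤ N := (one_le_pow₀ (by linarith)).trans hN
  have hlogN : Real.log N ≤ t ^ 10 := by
    have h1 : Real.log N ^ 2 ≤ (t ^ 10) ^ 2 := by
      calc Real.log N ^ 2 ≤ Y := hlog
        _ = (t ^ 10) ^ 2 := by rw [hYt]; ring
    exact le_of_sq_le_sq h1 (by positivity)
  have hbad : ∀ j ∈ B, (π / 2) ^ 2 ≤
      (∑ p ∈ PP Y, ((jacobiSym ((N + 1 + j : ℕ) : ℤ) p : ℤ) : ℝ)) ^ 2 := by
    intro j hj
    rw [hB, mem_filter, mem_range] at hj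
    have h1 := sum_le Y (N + 1 + j) (by omega)
    rw [← hπ] at h1
    have h2 := two_pow_omega (N + 1 + j) (by omega)
    have h3 : ((N + 1 + j).primeFactors.card : ℝ) ≤ 3 * t ^ 10 := by
      have h4 : ((2 : ℝ) ^ (N + 1 + j).primeFactors.card) ≤ 2 * N := by
        have h5 : 2 ^ (N + 1 + j).primeFactors.card ≤ 2 * N := h2.trans (by omega)
        exact_mod_cast h5
      have h5 := Real.log_le_log (by positivity) h4
      rw [Real.log_pow, Real.log_mul (by norm_num) (by positivity)] at h5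
      have h6 := Real.log_two_gt_d9
      have h7 := Real.log_two_lt_d9
      have h8 : (1 : ℝ) ≤ t ^ 10 := one_le_pow₀ (by linarith)
      have h9 : ((N + 1 + j).primeFactors.card : ℝ) * (0.69 : ℝ) ≤
          ((N + 1 + j).primeFactors.card : ℝ) * Real.log 2 := by
        gcongr
        linarith
      linarith
    have h4 : (t : ℝ) ^ 10 ≤ t ^ 15 := pow_le_pow_right₀ (by linarith) (by norm_num)
    have h5 : t ^ 15 * 1000 ≤ t ^ 18 := by
      calc t ^ 15 * 1000 ≤ t ^ 15 * t ^ 3 := by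
            have : (1000 : ℝ) ≤ t ^ 3 := by
              calc (1000 : ℝ) ≤ t := ht1
                _ = t ^ 1 := by ring
                _ ≤ t ^ 3 := pow_le_pow_right₀ (by linarith) (by norm_num)
            gcongr
        _ = t ^ 18 := by ring
    have h6 : π / 2 ≤ -(∑ p ∈ PP Y, ((jacobiSym ((N + 1 + j : ℕ) : ℤ) p : ℤ) : ℝ)) := by
      have h7 := hj.2
      have h8 : 0 < t ^ 15 := by positivity
      linarith
    calc (π / 2) ^ 2 ≤ (-(∑ p ∈ PP Y, ((jacobiSym ((N + 1 + j : ℕ) : ℤ) p : ℤ) : ℝ))) ^ 2 := by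
          gcongr
      _ = _ := by ring
  have hsum : (B.card : ℝ) * (π / 2) ^ 2 ≤ π * N + π ^ 2 * (Y : ℝ) ^ 2 := by
    calc (B.card : ℝ) * (π / 2) ^ 2 = ∑ j ∈ B, (π / 2) ^ 2 := by
          rw [sum_const, nsmul_eq_mul]
      _ ≤ ∑ j ∈ B, (∑ p ∈ PP Y, ((jacobiSym ((N + 1 + j : ℕ) : ℤ) p : ℤ) : ℝ)) ^ 2 :=
          sum_le_sum hbad
      _ ≤ ∑ j ∈ range N, (∑ p ∈ PP Y, ((jacobiSym ((N + 1 + j : ℕ) : ℤ) p : ℤ) : ℝ)) ^ 2 :=
          sum_le_sum_of_subset_of_nonneg (by rw [hB]; exact filter_subset _ _) (fun _ _ _ => sq_nonneg _)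
      _ ≤ _ := by rw [hπ]; exact second Y N
  -- conclusion
  have h1 : (B.card : ℝ) ≤ 4 * (N / π + t ^ 40) := by
    have h2 : (B.card : ℝ) * π ^ 2 ≤ 4 * (N / π + t ^ 40) * π ^ 2 := by
      have h3 : 4 * (N / π + t ^ 40) * π ^ 2 = 4 * (π * N + π ^ 2 * t ^ 40) := by
        field_simp
      rw [h3]
      have h4 : (Y : ℝ) ^ 2 = t ^ 40 := by rw [hYt]; ring
      rw [h4] at hsum
      nlinarith [hsum]
    exact le_of_mul_le_mul_right h2 (by positivity)
  have h2 : (N : ℝ) / π ≤ N / t ^ 18 := by gcongr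
  have h3 : t ^ 40 ≤ N / t ^ 18 := by
    rw [le_div_iff₀ (by positivity)]
    calc t ^ 40 * t ^ 18 = t ^ 58 := by ring
      _ ≤ t ^ 80 := pow_le_pow_right₀ (by linarith) (by norm_num)
      _ ≤ N := hN
  calc (B.card : ℝ) ≤ 4 * (N / t ^ 18 + N / t ^ 18) := by linarith
    _ = N * (8 / t ^ 18) := by ring
    _ ≤ N * (t ^ 10)⁻¹ := by
        gcongr
        rw [div_le_iff₀ (by positivity), inv_mul_eq_div, le_div_iff₀ (by positivity)]
        calc 8 * t ^ 10 ≤ t ^ 8 * t ^ 10 := by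
              have : (8 : ℝ) ≤ t ^ 8 := by
                calc (8 : ℝ) ≤ t := by linarith
                  _ = t ^ 1 := by ring
                  _ ≤ t ^ 8 := pow_le_pow_right₀ (by linarith) (by norm_num)
              gcongr
          _ = t ^ 18 := by ring

end Pool.Agent.H45.AD.SPf
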