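import Pool.Agent.H45.AD.Stm2
import Pool.Agent.H45.PS.FINP

/-! Statements for the project AD, third part: the results. -/

set_option autoImplicit false

namespace Pool.Agent.H45.AD

open Polynomial NumberField Pool.Agent.H45.RQ

/-- HR: the class number formula gives an upper bound (`Pool.Agent.Q210.PL.cnf`, `lone_le`,
see `Pool.Agent.H45.RQ.h_reg`, `h_triv`) -/
def StmtHR : Prop := ∃ C : ℝ, 1 ≤ C ∧ ∀ d : ℕ, 1 < d → Squarefree d →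
    hnum d * Units.regulator (QS d) ≤ C * √(d : ℝ) * (1 + Real.log d)

/-- UN: the union over all the sets `S` -/
def StmtUN : Prop := ∀ (s : ℕ) (e : ℝ), 0 < e → e ≤ 1 / 2 → ∃ c : ℝ, 0 < c ∧ c ≤ 1 ∧
    ∃ N₁ : ℕ, ∀ N ≥ N₁, ∀ A : ℝ, 1 ≤ A → A ≤ Real.log N ^ (1 / 2 - e) →
      ({d : ℕ | N < d ∧ d ≤ 2 * N ∧ Squarefree d ∧ ∃ S : Finset ℕ, S.card ≤ s ∧
        S ⊆ spl d ⌊(N : ℝ) ^ (c / A ^ 2)⌋₊ ∧ ∃ x y : ℤ, 0 ≤ x ∧ 1 ≤ y ∧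
        NS S ((N : ℝ) ^ (c / A ^ 2)) (x ^ 2 - d * y ^ 2) ∧
        (x : ℝ) + y * √(d : ℝ) ≤ (N : ℝ) ^ A}.ncard : ℝ) ≤ (N : ℝ) ^ (1 - c / A ^ 2)

/-- T1: torsion in the class groups -/
def StmtT1 : Prop := ∀ e : ℝ, 0 < e → e ≤ 1 / 2 → ∃ c : ℝ, 0 < c ∧ ∃ N₀ : ℕ, ∀ N ≥ N₀,
    ∀ A : ℝ, 1 ≤ A → A ≤ Real.log N ^ (1 / 2 - e) →
      ({d : ℕ | N < d ∧ d ≤ 2 * N ∧ Squarefree d ∧ ∃ k : ℕ, 1 ≤ k ∧ (k : ℝ) ≤ A ^ 3 ∧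
        (d : ℝ) ^ (1 / 2 - c / A ^ 2) <
          (Nat.card {a : ClassGroup (𝓞 (QS d)) // a ^ k = 1} : ℝ)}.ncard : ℝ) ≤
        (N : ℝ) ^ (1 - c / A ^ 2)

/-- T2: `S`-units and the class number of the ring of `S`-integers -/
def StmtT2 : Prop := ∀ (s : ℕ) (e : ℝ), 0 < e → e ≤ 1 / 2 → ∃ c C : ℝ, 0 < c ∧ ∃ N₀ : ℕ,
    ∀ N ≥ N₀, ∀ A : ℝ, 1 ≤ A → A ≤ Real.log N ^ (1 / 2 - e) →
      ({d : ℕ | N < d ∧ d ≤ 2 * N ∧ Squarefree d ∧ ∃ S : Finset ℕ, S.card ≤ s ∧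
        S ⊆ spl d ⌊(N : ℝ) ^ (c / A ^ 2)⌋₊ ∧
        ((∃ x y : ℤ, 0 ≤ x ∧ 1 ≤ y ∧ NS S ((N : ℝ) ^ (c / A ^ 2)) (x ^ 2 - d * y ^ 2) ∧
          (x : ℝ) + y * √(d : ℝ) ≤ (N : ℝ) ^ A) ∨
        C * √(d : ℝ) / A * ∏ p ∈ S, (Real.log p / (A * Real.log N)) <
          ((GS d S).index : ℝ))}.ncard : ℝ) ≤ (N : ℝ) ^ (1 - c / A ^ 2)

end Pool.Agent.H45.AD
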