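import Pool.Agent.H45.AD.T3
import Pool.Agent.H45.AD.SP

/-! Statements for the project AD, fourth part: an explicit exponent for the torsion on average.

For `k ≥ 5` and `Y = N ^ (3 / (2 k + 2))`: the sum of `#Cl(d)[k]` over the squarefree `d ∈ (N, 2N]` is at
most `N ^ (3/2 - 3/(2k+2) + ε)`. Pairs `p ≠ q` of split primes up to `Y` are bad for `d` if
`x ^ 2 - d y ^ 2 = ± 4 (p q) ^ k` has a solution with `y ≥ 1` and `x + y √d ≤ 4 Y ^ k`. -/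

set_option autoImplicit false

namespace Pool.Agent.H45.AD

open Polynomial NumberField Pool.Agent.H45.RQ

/-- the number of the elements of order dividing `k` in the class group of `ℚ(√d)` -/
noncomputable def Tk (d k : ℕ) : ℕ := Nat.card {a : ClassGroup (𝓞 (QS d)) // a ^ k = 1}

/-- the bad pairs of split primes -/
noncomputable def bad (d Y k : ℕ) : Finset (ℕ × ℕ) := by
  classical
  exact (spl d Y ×ˢ spl d Y).filter fun w => w.1 ≠ w.2 ∧ ∃ x y : ℤ, 0 ≤ x ∧ 1 ≤ y ∧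
    (x ^ 2 - d * y ^ 2 = 4 * ((w.1 * w.2 : ℕ) : ℤ) ^ k ∨
      x ^ 2 - d * y ^ 2 = -(4 * ((w.1 * w.2 : ℕ) : ℤ) ^ k)) ∧
    (x : ℝ) + y * √(d : ℝ) ≤ 4 * (Y : ℝ) ^ k

/-- PG: packing with bad pairs. Variant of `Pool.Agent.H14.AD.pack`: if all `X + Y √d` in question are
larger than `2 √NN e ^ (1/2)` then the positions have distance `> 1`, so `T.card ≤ 2 * regulator`. In
the set of the `p ∈ spl d Y` with `[𝔭] ^ k = c` (a given class), `n` elements and `e` ordered bad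
pairs, Turán gives `r ≥ n ^ 2 / (n + e)` elements without bad pairs, so `n ^ 2 ≤ 2 R (n + e)`; sum over
all the classes `C` with `c = C ^ k` (each bad pair lies in at most `Tk` of them) and Cauchy-Schwarz. -/
def StmtPG : Prop := ∀ d Y k : ℕ, 16 ≤ d → Squarefree d → 1 ≤ k → 1 ≤ Y →
    ((spl d Y).card : ℝ) ^ 2 * (Tk d k : ℝ) ≤
      2 * hnum d * Units.regulator (QS d) * ((spl d Y).card + (bad d Y k).card)

/-- S2: almost all `d` have many small split primes, strong form (from `SPf.second`, `SPf.sum_le` and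
Chebyshev: if `spl.card < PP.card / 4` then the sum of the symbols is `≤ - PP.card / 4`) -/
def StmtS2 : Prop := ∀ ε : ℝ, 0 < ε → ∃ Y₀ : ℕ, ∀ Y N : ℕ, Y₀ ≤ Y → Y ^ 4 ≤ N →
    Real.log N ^ 2 ≤ Y →
    (({d : ℕ | N < d ∧ d ≤ 2 * N ∧ ((spl d Y).card : ℝ) < (Y : ℝ) ^ (1 - ε)}.ncard : ℕ) : ℝ) ≤
      N * (Y : ℝ) ^ (-(1 - ε))

/-- RO: the square roots modulo `q ^ 2` of a residue prime to `q`: fix one root `x₁`; every root `x`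
is determined up to 2 possibilities by `u = gcd (x - x₁) (q ^ 2)`, as then `q ^ 2 / u ∣ x + x₁`
and `gcd (u, q ^ 2 / u) ∣ 2`. -/
def StmtRO : Prop := ∀ (q : ℕ) (a : ℤ), 1 ≤ q →
    ((Finset.range (q ^ 2)).filter fun x : ℕ => (q : ℤ) ^ 2 ∣ (x : ℤ) ^ 2 - a ∧
      Nat.Coprime x q).card ≤ 2 * (q ^ 2).divisors.card

/-- DV: the divisor bound -/
def StmtDV : Prop := ∀ ε : ℝ, 0 < ε → ∃ C : ℝ, 1 ≤ C ∧ ∀ n : ℕ, 1 ≤ n →
    ((n.divisors.card : ℕ) : ℝ) ≤ C * (n : ℝ) ^ ε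

/-- CT: the number of the solutions of `x ^ 2 - d y ^ 2 = a` with `d ∈ (N, 2N]`, `y ≤ V`: write
`(x, y) = g (x', y')` with `g ^ 2 ∣ a` and coprime `x', y'`; for given `y'` the `x'` lie in an interval
of length `≤ y' √N` and in at most `2 τ(y' ^ 2)` residue classes modulo `y' ^ 2` (`StmtRO`), so there
are at most `2 τ(y' ^ 2) (√N / y' + 1)` of them. -/
def StmtCT : Prop := ∀ ε : ℝ, 0 < ε → ∃ C : ℝ, 1 ≤ C ∧ ∀ N V : ℕ, 1 ≤ N → 1 ≤ V →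
    ∀ a : ℤ, a ≠ 0 →
    (({w : ℤ × ℤ | 0 ≤ w.1 ∧ 1 ≤ w.2 ∧ w.2 ≤ V ∧ ∃ d : ℤ, N < d ∧ d ≤ 2 * N ∧
      w.1 ^ 2 - d * w.2 ^ 2 = a}.ncard : ℕ) : ℝ) ≤ C * (|(a : ℝ)| * V) ^ ε * (√(N : ℝ) + V)

/-- BA: the bad pairs on average: a bad pair gives `y ≤ 4 Y ^ k / √N`; the pair `(x, y)` determines
`d` -/
def StmtBA : Prop := ∀ (k : ℕ) (ε : ℝ), 1 ≤ k → 0 < ε → ∃ N₀ : ℕ, ∀ N Y : ℕ, N₀ ≤ N → 1 ≤ Y →
    Y ≤ N → ∑ d ∈ Finset.Ioc N (2 * N), ((bad d Y k).card : ℝ) ≤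
      (N : ℝ) ^ ε * (Y : ℝ) ^ 2 * (√(N : ℝ) + (Y : ℝ) ^ k / √(N : ℝ))

/-- AV: the torsion on average -/
def StmtAV : Prop := ∀ (k : ℕ) (ε : ℝ), 5 ≤ k → 0 < ε → ∃ N₀ : ℕ, ∀ N ≥ N₀,
    ∑ d ∈ (Finset.Ioc N (2 * N)).filter Squarefree, (Tk d k : ℝ) ≤
      (N : ℝ) ^ (3 / 2 - 3 / (2 * (k : ℝ) + 2) + ε)

/-- T5: the torsion, for almost all `d` and all `k` at the same time -/
def StmtT5 : Prop := ∀ e ε : ℝ, 0 < e → e ≤ 1 / 2 → 0 < ε → ∃ c : ℝ, 0 < c ∧ ∃ N₀ : ℕ, ∀ N ≥ N₀,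
    ∀ A : ℝ, 1 ≤ A → A ≤ Real.log N ^ (1 / 2 - e) →
      ({d : ℕ | N < d ∧ d ≤ 2 * N ∧ Squarefree d ∧ ∃ k : ℕ, 5 ≤ k ∧ (k : ℝ) ≤ A ^ 3 ∧
        (d : ℝ) ^ (1 / 2 - max (3 / (2 * (k : ℝ) + 2) - ε) (c / (k : ℝ) ^ ((2 : ℝ) / 3))) <
          (Tk d k : ℝ)}.ncard : ℝ) ≤ (N : ℝ) ^ (1 - c / A ^ 2)

end Pool.Agent.H45.AD
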