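import Pool.Agent.H45.AD.Stm3
import Pool.Agent.H45.PU.COVU

/-! Torsion in the class groups: all the exponents at the same time. -/

set_option autoImplicit false

namespace Pool.Agent.H45.AD

open Polynomial NumberField Pool.Agent.H45.RQ Pool.Agent.H45.PU Filter

/-- T3: torsion in the class groups, all the exponents at the same time -/
def StmtT3 : Prop := ∀ e : ℝ, 0 < e → e ≤ 1 / 2 → ∃ c : ℝ, 0 < c ∧ ∃ N₀ : ℕ, ∀ N ≥ N₀,
    ∀ A : ℝ, 1 ≤ A → A ≤ Real.log N ^ (1 / 2 - e) →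
      ({d : ℕ | N < d ∧ d ≤ 2 * N ∧ Squarefree d ∧ ∃ k : ℕ, 1 ≤ k ∧ (k : ℝ) ≤ A ^ 3 ∧
        (d : ℝ) ^ (1 / 2 - c / (k : ℝ) ^ ((2 : ℝ) / 3)) <
          (Nat.card {a : ClassGroup (𝓞 (QS d)) // a ^ k = 1} : ℝ)}.ncard : ℝ) ≤
        (N : ℝ) ^ (1 - c / A ^ 2)

theorem t3 (h : StmtT1) : StmtT3 := by
  classical
  intro e he0 he1
  obtain ⟨c, hc, N₁, hN₁⟩ := h e he0 he1
  obtain ⟨N₂, hN₂⟩ := Filter.eventually_atTop.1 (evpow 3 (c / 2) e (by norm_num) (by positivity) he0)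
  refine ⟨c / 4, by positivity, max 1 (max N₁ N₂), fun N hN A hA1 hA2 => ?_⟩
  have hNN1 : N₁ ≤ N := (le_max_left _ _).trans ((le_max_right _ _).trans hN)
  have hNN2 : N₂ ≤ N := (le_max_right _ _).trans ((le_max_right _ _).trans hN)
  have hN1 : 1 ≤ N := (le_max_left _ _).trans hN
  have hN1r : (1 : ℝ) ≤ N := by exact_mod_cast hN1
  have hN0r : (0 : ℝ) < N := by linarith
  obtain ⟨hlog1, hev⟩ := hN₂ N hNN2
  obtain ⟨hA3, hlog3, -⟩ := hev A hA1 hA2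
  obtain ⟨E, hE⟩ : ∃ E : ℝ → Set ℕ, E = fun B => {d : ℕ | N < d ∧ d ≤ 2 * N ∧ Squarefree d ∧
    ∃ k : ℕ, 1 ≤ k ∧ (k : ℝ) ≤ B ^ 3 ∧ (d : ℝ) ^ (1 / 2 - c / B ^ 2) <
      (Nat.card {a : ClassGroup (𝓞 (QS d)) // a ^ k = 1} : ℝ)} := ⟨_, rfl⟩
  have hEfin : ∀ B, (E B).Finite := by
    intro B
    refine (Set.finite_Icc N (2 * N)).subset ?_
    rw [hE]
    rintro d ⟨h1, h2, -⟩
    exact ⟨h1.le, h2⟩
  obtain ⟨J, hJ⟩ : ∃ J : ℕ, J = ⌈A⌉₊ := ⟨_, rfl⟩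
  have hJA : A ≤ 2 ^ J := by
    calc A ≤ (J : ℝ) := by rw [hJ]; exact Nat.le_ceil A
      _ ≤ 2 ^ J := by exact_mod_cast (Nat.lt_two_pow_self (n := J)).le
  have hJ2 : (J : ℝ) ≤ A + 1 := by rw [hJ]; exact (Nat.ceil_lt_add_one (by linarith)).le
  have hsub : {d : ℕ | N < d ∧ d ≤ 2 * N ∧ Squarefree d ∧ ∃ k : ℕ, 1 ≤ k ∧ (k : ℝ) ≤ A ^ 3 ∧
        (d : ℝ) ^ (1 / 2 - c / 4 / (k : ℝ) ^ ((2 : ℝ) / 3)) <
          (Nat.card {a : ClassGroup (𝓞 (QS d)) // a ^ k = 1} : ℝ)} ⊆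
      ⋃ j ∈ Finset.range (J + 1), E (min (2 ^ j) A) := by
    rintro d ⟨h1, h2, h3, k, hk1, hkA, hk⟩
    have hk1r : (1 : ℝ) ≤ k := by exact_mod_cast hk1
    have hd1 : (1 : ℝ) ≤ d := by
      have : (N : ℝ) ≤ d := by exact_mod_cast h1.le
      linarith
    have hex : ∃ j : ℕ, (k : ℝ) ≤ (2 ^ j) ^ 3 := ⟨J, hkA.trans (pow_le_pow_left₀ (by linarith) hJA 3)⟩
    obtain ⟨j, hj⟩ : ∃ j, j = Nat.find hex := ⟨_, rfl⟩
    have hjJ : j ≤ J := by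
      rw [hj]
      exact Nat.find_le (hkA.trans (pow_le_pow_left₀ (by linarith) hJA 3))
    have hj1 : (k : ℝ) ≤ (2 ^ j) ^ 3 := by rw [hj]; exact Nat.find_spec hex
    simp only [Set.mem_iUnion, Finset.mem_range]
    refine ⟨j, by omega, ?_⟩
    rw [hE]
    obtain ⟨B, hB⟩ : ∃ B : ℝ, B = min (2 ^ j) A := ⟨_, rfl⟩
    have hB1 : 1 ≤ B := by
      rw [hB]
      exact le_min (one_le_pow₀ (by norm_num)) hA1
    have hkB : (k : ℝ) ≤ B ^ 3 := by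
      rw [hB]
      rcases min_choice ((2 : ℝ) ^ j) A with h4 | h4 <;> rw [h4]
      · exact hj1
      · exact hkA
    -- `B ^ 2 ≤ 4 k ^ (2 / 3)`
    have hBk : B ≤ 2 * (k : ℝ) ^ ((1 : ℝ) / 3) := by
      have h5 : (2 : ℝ) ^ j ≤ 2 * (k : ℝ) ^ ((1 : ℝ) / 3) := by
        rcases Nat.eq_zero_or_pos j with h6 | h6
        · rw [h6]
          have := Real.one_le_rpow hk1r (by norm_num : (0 : ℝ) ≤ 1 / 3)
          norm_num
          linarith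
        · have h7 : ¬ (k : ℝ) ≤ (2 ^ (j - 1)) ^ 3 := by
            apply Nat.find_min hex
            omega
          rw [not_le] at h7
          have h8 : ((2 : ℝ) ^ (j - 1)) ≤ (k : ℝ) ^ ((1 : ℝ) / 3) := by
            calc (2 : ℝ) ^ (j - 1) = (((2 : ℝ) ^ (j - 1)) ^ 3) ^ ((1 : ℝ) / 3) := by
                  rw [← Real.rpow_natCast ((2 : ℝ) ^ (j - 1)) 3, ← Real.rpow_mul (by positivity)]
                  norm_num
              _ ≤ (k : ℝ) ^ ((1 : ℝ) / 3) :=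
                  Real.rpow_le_rpow (by positivity) h7.le (by norm_num)
          have h9 : (2 : ℝ) ^ j = 2 * 2 ^ (j - 1) := by
            rw [← pow_succ']
            congr 1
            omega
          rw [h9]
          linarith
      rw [hB]
      exact (min_le_left _ _).trans h5
    have hB2 : B ^ 2 ≤ 4 * (k : ℝ) ^ ((2 : ℝ) / 3) := by
      calc B ^ 2 ≤ (2 * (k : ℝ) ^ ((1 : ℝ) / 3)) ^ 2 := pow_le_pow_left₀ (by linarith) hBk 2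
        _ = 4 * ((k : ℝ) ^ ((1 : ℝ) / 3)) ^ 2 := by ring
        _ = 4 * (k : ℝ) ^ ((2 : ℝ) / 3) := by
            rw [← Real.rpow_natCast, ← Real.rpow_mul (by linarith)]
            norm_num
    rw [← hB]
    refine ⟨h1, h2, h3, k, hk1, hkB, lt_of_le_of_lt ?_ hk⟩
    apply Real.rpow_le_rpow_of_exponent_le hd1
    have hB20 : 0 < B ^ 2 := by positivity
    have hk0 : 0 < (k : ℝ) ^ ((2 : ℝ) / 3) := Real.rpow_pos_of_pos (by linarith) _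
    have h5 : c / 4 / (k : ℝ) ^ ((2 : ℝ) / 3) ≤ c / B ^ 2 := by
      rw [div_div]
      exact div_le_div_of_nonneg_left hc.le hB20 hB2
    linarith
  have hfin : (⋃ j ∈ Finset.range (J + 1), E (min (2 ^ j) A)).Finite :=
    Set.Finite.biUnion (Finset.finite_toSet _) fun j _ => hEfin _
  have h5 : ({d : ℕ | N < d ∧ d ≤ 2 * N ∧ Squarefree d ∧ ∃ k : ℕ, 1 ≤ k ∧ (k : ℝ) ≤ A ^ 3 ∧
        (d : ℝ) ^ (1 / 2 - c / 4 / (k : ℝ) ^ ((2 : ℝ) / 3)) <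
          (Nat.card {a : ClassGroup (𝓞 (QS d)) // a ^ k = 1} : ℝ)}.ncard : ℝ) ≤
      ∑ j ∈ Finset.range (J + 1), ((E (min (2 ^ j) A)).ncard : ℝ) := by
    have h6 := Set.ncard_le_ncard hsub hfin
    have h7 := Finset.set_ncard_biUnion_le (Finset.range (J + 1)) (fun j => E (min (2 ^ j) A))
    exact_mod_cast h6.trans h7
  refine h5.trans ?_
  have h6 : ∀ j ∈ Finset.range (J + 1), ((E (min (2 ^ j) A)).ncard : ℝ) ≤
      (N : ℝ) ^ (1 - c / A ^ 2) := by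
    intro j _
    have hB1 : 1 ≤ min ((2 : ℝ) ^ j) A := le_min (one_le_pow₀ (by norm_num)) hA1
    have h7 := hN₁ N hNN1 (min (2 ^ j) A) hB1 ((min_le_right _ _).trans hA2)
    rw [hE]
    refine h7.trans ?_
    apply Real.rpow_le_rpow_of_exponent_le hN1r
    have h8 : (min ((2 : ℝ) ^ j) A) ^ 2 ≤ A ^ 2 :=
      pow_le_pow_left₀ (by linarith) (min_le_right _ _) 2
    have h9 : c / A ^ 2 ≤ c / (min ((2 : ℝ) ^ j) A) ^ 2 :=
      div_le_div_of_nonneg_left hc.le (by positivity) h8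
    linarith
  refine (Finset.sum_le_sum h6).trans ?_
  rw [Finset.sum_const, Finset.card_range, nsmul_eq_mul]
  push_cast
  have h7 : (J : ℝ) + 1 ≤ 3 * Real.log N := by nlinarith
  have h8 : (N : ℝ) ^ (1 - c / 4 / A ^ 2) =
      (N : ℝ) ^ (c / 2 / A ^ 2) * ((N : ℝ) ^ (c / 4 / A ^ 2) * (N : ℝ) ^ (1 - c / A ^ 2)) := by
    rw [← Real.rpow_add hN0r, ← Real.rpow_add hN0r]
    congr 1
    ring
  rw [h8]
  have h9 : 0 < (N : ℝ) ^ (1 - c / A ^ 2) := Real.rpow_pos_of_pos hN0r _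
  have h10 : 1 ≤ (N : ℝ) ^ (c / 4 / A ^ 2) := Real.one_le_rpow hN1r (by positivity)
  calc ((J : ℝ) + 1) * (N : ℝ) ^ (1 - c / A ^ 2)
      ≤ (N : ℝ) ^ (c / 2 / A ^ 2) * (N : ℝ) ^ (1 - c / A ^ 2) :=
        mul_le_mul_of_nonneg_right (h7.trans hlog3) h9.le
    _ ≤ (N : ℝ) ^ (c / 2 / A ^ 2) * ((N : ℝ) ^ (c / 4 / A ^ 2) * (N : ℝ) ^ (1 - c / A ^ 2)) := by
        apply mul_le_mul_of_nonneg_left _ (by positivity)
        exact le_mul_of_one_le_left h9.le h10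

end Pool.Agent.H45.AD
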