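import Pool.Agent.H26.AD.T1

set_option autoImplicit false

/-! AD-T7: torsion in class groups and the regulator (adapted from AD-T1 of helper26). -/

namespace Pool.Agent.H45.AD.T7

open NumberField Pool.Agent.H45.RQ Pool.Agent.H45.AD Filter Pool.Agent.H26.AD.T1

/-- T7: torsion, class number and regulator -/
def StmtT7 : Prop := ∀ e : ℝ, 0 < e → e ≤ 1 / 2 → ∃ c : ℝ, 0 < c ∧ ∃ N₀ : ℕ, ∀ N ≥ N₀,
    ∀ A : ℝ, 1 ≤ A → A ≤ Real.log N ^ (1 / 2 - e) →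
      ({d : ℕ | N < d ∧ d ≤ 2 * N ∧ Squarefree d ∧ ∃ k : ℕ, 1 ≤ k ∧ (k : ℝ) ≤ A ^ 3 ∧
        hnum d * Units.regulator (QS d) <
          (Nat.card {a : ClassGroup (𝓞 (QS d)) // a ^ k = 1} : ℝ) * (N : ℝ) ^ (c / A ^ 2)}.ncard : ℝ) ≤
        (N : ℝ) ^ (1 - c / A ^ 2)

/-- the estimate for one `d` -/
theorem one (hPK : StmtPK) (N : ℕ) (c₁ c₂ c A : ℝ) (hA : 1 ≤ A) (hc₂0 : 0 < c₂) (hc12 : c₂ ≤ c₁)
    (hc8 : c₂ ≤ 1 / 8) (hc : c = c₂ / 8) (hl : 1 ≤ Real.log N)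
    (hlog4 : 4 ≤ (N : ℝ) ^ (c₂ / A ^ 2))
    (hbig : 48 ≤ (N : ℝ) ^ (c₂ / 2 / A ^ 2))
    (d : ℕ) (hNd : N < d) (hd2 : d ≤ 2 * N) (hsq : Squarefree d)
    (hU : ¬ ∃ S : Finset ℕ, S.card ≤ 2 ∧
        S ⊆ spl d ⌊(N : ℝ) ^ (c₁ / A ^ 2)⌋₊ ∧ ∃ x y : ℤ, 0 ≤ x ∧ 1 ≤ y ∧
        NS S ((N : ℝ) ^ (c₁ / A ^ 2)) (x ^ 2 - d * y ^ 2) ∧
        (x : ℝ) + y * √(d : ℝ) ≤ (N : ℝ) ^ A)
    (hS : ((⌊(N : ℝ) ^ (c₂ / A ^ 2)⌋₊ : ℕ) : ℝ) ^ ((3 : ℝ) / 4) ≤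
      ((spl d ⌊(N : ℝ) ^ (c₂ / A ^ 2)⌋₊).card : ℝ))
    (k : ℕ) (hk1 : 1 ≤ k) (hk : (k : ℝ) ≤ A ^ 3) :
    (Nat.card {a : ClassGroup (𝓞 (QS d)) // a ^ k = 1} : ℝ) * (N : ℝ) ^ (c / A ^ 2) ≤
      hnum d * Units.regulator (QS d) := by
  have hN1 : 1 ≤ N := by
    by_contra hcon
    have : N = 0 := by omega
    rw [this] at hl
    norm_num at hl
  have hN1' : (1 : ℝ) ≤ N := by exact_mod_cast hN1
  have hN0 : (0 : ℝ) < N := by linarith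
  have hNe : 2 ≤ (N : ℝ) := by
    by_contra hcon
    have h1 : (N : ℝ) < 2 := not_le.1 hcon
    have h2 := Real.log_le_log hN0 h1.le
    have := Real.log_two_lt_d9
    linarith
  have hA0 : 0 < A := by linarith
  have hA2 : 0 < A ^ 2 := by positivity
  obtain ⟨Y, hY⟩ : ∃ Y : ℕ, Y = ⌊(N : ℝ) ^ (c₂ / A ^ 2)⌋₊ := ⟨_, rfl⟩
  rw [← hY] at hS
  obtain ⟨T, hT⟩ : ∃ T : ℝ, T = (N : ℝ) ^ (c₂ / A ^ 2) := ⟨_, rfl⟩
  rw [← hT] at hY hlog4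
  have hT0 : 0 < T := by linarith
  have hYle : (Y : ℝ) ≤ T := by
    rw [hY]
    exact Nat.floor_le hT0.le
  have hYge : T / 2 ≤ (Y : ℝ) := by
    have h1 := Nat.lt_floor_add_one T
    rw [← hY] at h1
    linarith
  have hY2 : (2 : ℝ) ≤ Y := by linarith
  have hY0 : (0 : ℝ) < Y := by linarith
  have hlogT : Real.log T = c₂ / A ^ 2 * Real.log N := by
    rw [hT, Real.log_rpow hN0]
  have hlogY : Real.log Y ≤ c₂ / A ^ 2 * Real.log N := by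
    rw [← hlogT]
    exact Real.log_le_log hY0 hYle
  have hYY : Y ≤ ⌊(N : ℝ) ^ (c₁ / A ^ 2)⌋₊ := by
    rw [hY, hT]
    apply Nat.floor_le_floor
    apply Real.rpow_le_rpow_of_exponent_le hN1'
    exact div_le_div_of_nonneg_right hc12 hA2.le
  have hTT : T ≤ (N : ℝ) ^ (c₁ / A ^ 2) := by
    rw [hT]
    apply Real.rpow_le_rpow_of_exponent_le hN1'
    exact div_le_div_of_nonneg_right hc12 hA2.le
  obtain ⟨B, hB⟩ : ∃ B : ℝ, B = A * Real.log N - Real.log 2 := ⟨_, rfl⟩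
  have hl2 := Real.log_two_lt_d9
  have hl2' := Real.log_two_gt_d9
  have hAl : A ≤ A * Real.log N := by nlinarith
  have hBge : A * Real.log N / 4 ≤ B := by
    rw [hB]
    nlinarith
  have hB4 : Real.log N / 4 ≤ B := by
    refine le_trans ?_ hBge
    nlinarith
  have hB0 : 0 < B := by linarith
  have hexpB : 2 * Real.exp B = (N : ℝ) ^ A := by
    rw [hB, Real.exp_sub, Real.exp_log (by norm_num), Real.rpow_def_of_pos hN0,
      mul_comm (Real.log N) A]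
    ring
  have hkY : 2 * (k : ℝ) * Real.log Y ≤ B := by
    have h1 : 2 * (k : ℝ) * Real.log Y ≤ 2 * A ^ 3 * (c₂ / A ^ 2 * Real.log N) := by
      have h2 : 0 ≤ Real.log Y := Real.log_nonneg (by linarith)
      have h3 : (0 : ℝ) ≤ A ^ 3 := by positivity
      exact mul_le_mul (by linarith) hlogY h2 (by positivity)
    have h2 : 2 * A ^ 3 * (c₂ / A ^ 2 * Real.log N) = 2 * c₂ * (A * Real.log N) := by
      field_simp
    rw [h2] at h1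
    have h3 : 0 ≤ A * Real.log N := by positivity
    nlinarith
  have hd1 : 1 < d := by omega
  have hcond : ∀ p ∈ spl d Y, ∀ q ∈ spl d Y, ∀ x y : ℤ, 0 ≤ x → 1 ≤ y →
      NS {p, q} 4 (x ^ 2 - d * y ^ 2) → 2 * Real.exp B < x + y * √(d : ℝ) := by
    intro p hp q hq x y hx hy hns
    rw [hexpB]
    by_contra hcon
    apply hU
    refine ⟨{p, q}, Finset.card_le_two, ?_, x, y, hx, hy, NS_mono (hlog4.trans hTT) hns,
      not_lt.1 hcon⟩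
    intro r hr
    rw [Finset.mem_insert, Finset.mem_singleton] at hr
    rcases hr with rfl | rfl
    · exact spl_mono d hYY hp
    · exact spl_mono d hYY hq
  have hpk := hPK d Y k B hd1 hsq hk1 hB0 hkY hcond
  obtain ⟨n, hn⟩ : ∃ n : ℝ, n = (Nat.card {a : ClassGroup (𝓞 (QS d)) // a ^ k = 1} : ℝ) :=
    ⟨_, rfl⟩
  rw [← hn] at hpk ⊢
  have hn0 : 0 ≤ n := by rw [hn]; positivity
  have hd0 : (0 : ℝ) < d := by exact_mod_cast (by omega : 0 < d)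
  have hdN : (d : ℝ) ≤ 2 * N := by exact_mod_cast hd2
  -- lower bound for the left side
  have hS2 : T ^ ((3 : ℝ) / 4) / 2 ≤ ((spl d Y).card : ℝ) := by
    refine le_trans ?_ hS
    have h1 : (T / 2) ^ ((3 : ℝ) / 4) ≤ (Y : ℝ) ^ ((3 : ℝ) / 4) :=
      Real.rpow_le_rpow (by positivity) hYge (by norm_num)
    refine le_trans ?_ h1
    rw [Real.div_rpow hT0.le (by norm_num)]
    apply div_le_div_of_nonneg_left (by positivity) (by positivity)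
    calc (2 : ℝ) ^ ((3 : ℝ) / 4) ≤ 2 ^ (1 : ℝ) :=
          Real.rpow_le_rpow_of_exponent_le (by norm_num) (by norm_num)
      _ = 2 := Real.rpow_one _
  obtain ⟨W, hW⟩ : ∃ W : ℝ, W = T ^ ((3 : ℝ) / 4) := ⟨_, rfl⟩
  rw [← hW] at hS2
  have hW0 : 0 < W := by rw [hW]; positivity
  have h1 : W / 2 * n * (Real.log N / 4) ≤ 2 * hnum d * Units.regulator (QS d) := by
    calc W / 2 * n * (Real.log N / 4) ≤ ((spl d Y).card : ℝ) * n * B := by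
          apply mul_le_mul (mul_le_mul_of_nonneg_right hS2 hn0) hB4 (by linarith) (by positivity)
      _ ≤ 2 * hnum d * Units.regulator (QS d) := hpk
  have hWN : W = (N : ℝ) ^ (3 * c₂ / 4 / A ^ 2) := by
    rw [hW, hT, ← Real.rpow_mul hN0.le]
    congr 1
    ring
  have hcA : (0 : ℝ) ≤ (N : ℝ) ^ (c / A ^ 2) := by positivity
  have hdc : (N : ℝ) ^ (c / A ^ 2) ≤ (N : ℝ) ^ (c₂ / 4 / A ^ 2) := by
    apply Real.rpow_le_rpow_of_exponent_le hN1'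
    rw [hc]
    apply div_le_div_of_nonneg_right _ hA2.le
    linarith
  have h5 : 48 * (N : ℝ) ^ (c / A ^ 2) ≤ W := by
    calc 48 * (N : ℝ) ^ (c / A ^ 2) ≤ (N : ℝ) ^ (c₂ / 2 / A ^ 2) * (N : ℝ) ^ (c₂ / 4 / A ^ 2) :=
          mul_le_mul hbig hdc (by positivity) (by positivity)
      _ = W := by
          rw [hWN, ← Real.rpow_add hN0]
          congr 1
          ring
  have h6 : W * n ≤ 16 * (hnum d * Units.regulator (QS d)) := by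
    have h7 : W / 2 * n * (1 / 4) ≤ W / 2 * n * (Real.log N / 4) := by
      apply mul_le_mul_of_nonneg_left (by linarith) (by positivity)
    linarith
  have h8 : 48 * (N : ℝ) ^ (c / A ^ 2) * n ≤ W * n := mul_le_mul_of_nonneg_right h5 hn0
  have h9 : 0 ≤ n * (N : ℝ) ^ (c / A ^ 2) := mul_nonneg hn0 hcA
  nlinarith

theorem t (hUN : StmtUN) (hSP : StmtSP) (hPK : StmtPK) : StmtT7 := by
  intro e he0 he1
  obtain ⟨c₁, hc0, hc1, N₁, hN₁⟩ := hUN 2 e he0 he1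
  obtain ⟨Y₀, hY₀⟩ := hSP
  obtain ⟨c₂, hc₂⟩ : ∃ c₂ : ℝ, c₂ = min c₁ (1 / 8) := ⟨_, rfl⟩
  have hc₂0 : 0 < c₂ := by rw [hc₂]; exact lt_min hc0 (by norm_num)
  have hc12 : c₂ ≤ c₁ := by rw [hc₂]; exact min_le_left _ _
  have hc8 : c₂ ≤ 1 / 8 := by rw [hc₂]; exact min_le_right _ _
  refine ⟨c₂ / 8, by positivity, ?_⟩
  have hev1 := Pool.Agent.H45.PU.evpow (48 + 2 * Y₀ + 10) (c₂ / 2) e
    (by positivity) (by positivity) he0
  have hev2 := Pool.Agent.H45.PU.evpow 4 (c₂ / 4) e (by norm_num) (by positivity) he0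
  obtain ⟨N₀, hN₀⟩ := Filter.eventually_atTop.1 ((hev1.and hev2).and (eventually_ge_atTop N₁))
  refine ⟨N₀, fun N hN A hA hAN => ?_⟩
  obtain ⟨⟨⟨hl, h1⟩, ⟨-, h2⟩⟩, hNN₁⟩ := hN₀ N hN
  obtain ⟨h3, h4, h5⟩ := h1 A hA hAN
  obtain ⟨-, -, h7⟩ := h2 A hA hAN
  have hY0' : (0 : ℝ) ≤ Y₀ := Nat.cast_nonneg _
  have hN1' : (1 : ℝ) ≤ N := by
    by_contra hcon
    have h8 : (N : ℝ) < 1 := not_le.1 hcon
    have h9 := Real.log_nonpos (Nat.cast_nonneg N) h8.le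
    linarith
  have hN0 : (0 : ℝ) < N := by linarith
  have hA0 : 0 < A := by linarith
  have hA2 : 0 < A ^ 2 := by positivity
  have hA21 : 1 ≤ A ^ 2 := one_le_pow₀ hA
  obtain ⟨T, hT⟩ : ∃ T : ℝ, T = (N : ℝ) ^ (c₂ / A ^ 2) := ⟨_, rfl⟩
  obtain ⟨V, hV⟩ : ∃ V : ℝ, V = (N : ℝ) ^ (c₂ / 2 / A ^ 2) := ⟨_, rfl⟩
  have hTV : T = V ^ 2 := by
    rw [hT, hV, rpn hN0]
    congr 1
    push_cast
    ring
  rw [← hV] at h4 h5
  have hV10 : 48 + 2 * (Y₀ : ℝ) + 10 ≤ V := h5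
  have hV1 : 1 ≤ V := by linarith
  have hT4 : V ≤ T := by rw [hTV]; nlinarith
  obtain ⟨Y, hY⟩ : ∃ Y : ℕ, Y = ⌊T⌋₊ := ⟨_, rfl⟩
  have hT0 : 0 < T := by linarith
  have hYle : (Y : ℝ) ≤ T := by
    rw [hY]
    exact Nat.floor_le hT0.le
  have hYge : T / 2 ≤ (Y : ℝ) := by
    have h1 := Nat.lt_floor_add_one T
    rw [← hY] at h1
    linarith
  have hY0 : (0 : ℝ) < Y := by linarith
  -- conditions of SP
  have hs1 : Y₀ ≤ Y := by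
    have : (Y₀ : ℝ) ≤ Y := by linarith
    exact_mod_cast this
  have hs2 : Y ^ 4 ≤ N := by
    have h8 : (Y : ℝ) ^ 4 ≤ N := by
      calc (Y : ℝ) ^ 4 ≤ T ^ 4 := pow_le_pow_left₀ hY0.le hYle 4
        _ = (N : ℝ) ^ (c₂ / A ^ 2 * 4) := by
            rw [hT, rpn hN0]
            norm_num
        _ ≤ (N : ℝ) ^ (1 : ℝ) := by
            apply Real.rpow_le_rpow_of_exponent_le hN1'
            have h9 : c₂ / A ^ 2 ≤ c₂ := div_le_self hc₂0.le hA21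
            linarith
        _ = N := Real.rpow_one _
    exact_mod_cast h8
  have hs3 : Real.log N ^ 2 ≤ Y := by
    refine le_trans ?_ hYge
    have h8 : 10 * Real.log N ≤ V := by
      refine le_trans ?_ h4
      apply mul_le_mul_of_nonneg_right _ (by linarith)
      linarith
    have h9 : (10 * Real.log N) ^ 2 ≤ V ^ 2 := pow_le_pow_left₀ (by linarith) h8 2
    rw [hTV]
    nlinarith
  have hsp := hY₀ Y N hs1 hs2 hs3
  have hun := hN₁ N hNN₁ A hA hAN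
  obtain ⟨E₁, hE₁⟩ : ∃ E₁ : Set ℕ, E₁ = {d : ℕ | N < d ∧ d ≤ 2 * N ∧ Squarefree d ∧
      ∃ S : Finset ℕ, S.card ≤ 2 ∧ S ⊆ spl d ⌊(N : ℝ) ^ (c₁ / A ^ 2)⌋₊ ∧
        ∃ x y : ℤ, 0 ≤ x ∧ 1 ≤ y ∧ NS S ((N : ℝ) ^ (c₁ / A ^ 2)) (x ^ 2 - d * y ^ 2) ∧
        (x : ℝ) + y * √(d : ℝ) ≤ (N : ℝ) ^ A} := ⟨_, rfl⟩
  obtain ⟨E₂, hE₂⟩ : ∃ E₂ : Set ℕ, E₂ = {d : ℕ | N < d ∧ d ≤ 2 * N ∧
      ((spl d Y).card : ℝ) < (Y : ℝ) ^ ((3 : ℝ) / 4)} := ⟨_, rfl⟩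
  rw [← hE₁] at hun
  rw [← hE₂] at hsp
  have hf1 : E₁.Finite := by
    refine (Set.finite_Icc 0 (2 * N)).subset ?_
    intro d hd
    rw [hE₁] at hd
    exact ⟨Nat.zero_le _, hd.2.1⟩
  have hf2 : E₂.Finite := by
    refine (Set.finite_Icc 0 (2 * N)).subset ?_
    intro d hd
    rw [hE₂] at hd
    exact ⟨Nat.zero_le _, hd.2.1⟩
  have hsub : {d : ℕ | N < d ∧ d ≤ 2 * N ∧ Squarefree d ∧ ∃ k : ℕ, 1 ≤ k ∧ (k : ℝ) ≤ A ^ 3 ∧
        hnum d * Units.regulator (QS d) <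
          (Nat.card {a : ClassGroup (𝓞 (QS d)) // a ^ k = 1} : ℝ) * (N : ℝ) ^ (c₂ / 8 / A ^ 2)} ⊆ E₁ ∪ E₂ := by
    rintro d ⟨hd1, hd2, hd3, k, hk1, hk2, hk3⟩
    by_contra hcon
    rw [Set.mem_union, not_or] at hcon
    obtain ⟨hc1', hc2'⟩ := hcon
    refine absurd hk3 (not_lt.2 ?_)
    refine one hPK N c₁ c₂ (c₂ / 8) A hA hc₂0 hc12 hc8 rfl hl ?_ ?_ d hd1 hd2 hd3 ?_ ?_
      k hk1 hk2
    · rw [← hT]
      linarith
    · rw [← hV]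
      linarith
    · intro hcon
      apply hc1'
      rw [hE₁]
      exact ⟨hd1, hd2, hd3, hcon⟩
    · rw [← hT, ← hY]
      by_contra hcon
      apply hc2'
      rw [hE₂]
      exact ⟨hd1, hd2, not_le.1 hcon⟩
  have hcard := (Set.ncard_le_ncard hsub (hf1.union hf2)).trans (Set.ncard_union_le E₁ E₂)
  have hcard' : (({d : ℕ | N < d ∧ d ≤ 2 * N ∧ Squarefree d ∧ ∃ k : ℕ, 1 ≤ k ∧ (k : ℝ) ≤ A ^ 3 ∧
        hnum d * Units.regulator (QS d) <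
          (Nat.card {a : ClassGroup (𝓞 (QS d)) // a ^ k = 1} : ℝ) * (N : ℝ) ^ (c₂ / 8 / A ^ 2)}.ncard : ℕ) : ℝ) ≤
      (E₁.ncard : ℝ) + (E₂.ncard : ℝ) := by exact_mod_cast hcard
  refine hcard'.trans ((add_le_add hun hsp).trans ?_)
  -- final estimate
  obtain ⟨U, hU⟩ : ∃ U : ℝ, U = (N : ℝ) ^ (c₂ / 4 / A ^ 2) := ⟨_, rfl⟩
  rw [← hU] at h7
  have hU0 : 0 < U := by linarith
  have hTU : T = U ^ 4 := by
    rw [hT, hU, rpn hN0]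
    congr 1
    push_cast
    ring
  have hg1 : (N : ℝ) ^ (1 - c₁ / A ^ 2) ≤ N / U ^ 4 := by
    have h8 : (N : ℝ) ^ (1 - c₁ / A ^ 2) ≤ (N : ℝ) ^ (1 - c₂ / A ^ 2) := by
      apply Real.rpow_le_rpow_of_exponent_le hN1'
      have := div_le_div_of_nonneg_right hc12 hA2.le
      linarith
    refine h8.trans (le_of_eq ?_)
    rw [Real.rpow_sub hN0, Real.rpow_one, ← hT, hTU]
  have hg2 : (N : ℝ) * (Y : ℝ) ^ (-(1 : ℝ) / 2) ≤ N * (2 / U ^ 2) := by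
    apply mul_le_mul_of_nonneg_left _ hN0.le
    rw [show (-(1 : ℝ) / 2) = -(1 / 2) by ring, Real.rpow_neg hY0.le, ← Real.sqrt_eq_rpow]
    have h8 : U ^ 2 / 2 ≤ √(Y : ℝ) := by
      apply Real.le_sqrt_of_sq_le
      rw [hTU] at hYge
      nlinarith [pow_pos hU0 4]
    rw [show 2 / U ^ 2 = (U ^ 2 / 2)⁻¹ by rw [inv_div]]
    exact inv_anti₀ (by positivity) h8
  have hg3 : (N : ℝ) / U ≤ (N : ℝ) ^ (1 - c₂ / 8 / A ^ 2) := by
    rw [hU]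
    have h8 : (N : ℝ) / (N : ℝ) ^ (c₂ / 4 / A ^ 2) = (N : ℝ) ^ (1 - c₂ / 4 / A ^ 2) := by
      rw [Real.rpow_sub hN0, Real.rpow_one]
    rw [h8]
    apply Real.rpow_le_rpow_of_exponent_le hN1'
    have h9 : c₂ / 8 / A ^ 2 ≤ c₂ / 4 / A ^ 2 := by
      apply div_le_div_of_nonneg_right _ hA2.le
      linarith
    linarith
  refine (add_le_add hg1 hg2).trans (le_trans ?_ hg3)
  have hU4 : 4 ≤ U := h7
  rw [show (N : ℝ) / U ^ 4 + N * (2 / U ^ 2) = N * (1 / U ^ 4 + 2 / U ^ 2) by ring,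
    show (N : ℝ) / U = N * (1 / U) by ring]
  apply mul_le_mul_of_nonneg_left _ hN0.le
  rw [div_add_div _ _ (by positivity) (by positivity), div_le_div_iff₀ (by positivity) hU0]
  have h8 : U ^ 2 ≤ U ^ 3 := pow_le_pow_right₀ (by linarith) (by norm_num)
  have h9 : 4 ≤ U ^ 2 := by nlinarith
  have h10 : U ^ 4 * 3 ≤ U ^ 5 := by
    have : U ^ 5 = U ^ 4 * U := by ring
    rw [this]
    exact mul_le_mul_of_nonneg_left (by linarith) (by positivity)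
  nlinarith [pow_pos hU0 3, pow_pos hU0 4, pow_pos hU0 5, pow_pos hU0 6]

end Pool.Agent.H45.AD.T7
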