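import Pool.Agent.H45.AD.WI2

/-! The number of the points of a window. -/

set_option autoImplicit false

namespace Pool.Agent.H45.AD

open Polynomial Pool.Agent.W223.HZ Pool.Agent.W223.PL Pool.Agent.Q276.PL Pool.Agent.H45.PF
  Pool.Agent.H45.PS

theorem winS_finite (Sp : Finset ℕ) (N₀ M : ℤ) (L Z Y : ℝ) : (WinS Sp N₀ M L Z Y).Finite := by
  refine (Set.finite_Icc ⌈-L⌉ ⌊L⌋).subset ?_
  rintro d ⟨h1, -⟩
  rw [abs_le] at h1
  exact ⟨Int.ceil_le.2 (by linarith), Int.le_floor.2 h1.2⟩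

theorem near_lin {N₀ M : ℤ} {D : ℝ} (hF : Fam 1 (C N₀ + C M * X : ℤ[X])) (hM0 : 0 ≤ M)
    (hD : D ≤ N₀) (hD2 : (N₀ : ℝ) ≤ 2 * D) (hMD : (M : ℝ) * D ^ ((1 : ℝ) / 4) ≤ D / 8)
    (hD1 : 1 ≤ D) :
    Near 1 (1 / 4) D (D ^ ((1 : ℝ) / 4)) (C N₀ + C M * X : ℤ[X]) where
  fam := hF
  Sge := le_rfl
  l0 := by simpa using hD
  l02 := by simpa using hD2
  coef := by
    intro i hi
    have h0 : (C N₀ + C M * X : ℤ[X]).coeff 0 = N₀ := by simp
    rw [h0]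
    rcases Nat.lt_or_ge 1 i with h1 | h1
    · have h2 : (C N₀ + C M * X : ℤ[X]).coeff i = 0 := by
        rw [coeff_add, coeff_C, coeff_C_mul, coeff_X, if_neg (by omega), if_neg (by omega)]
        simp
      rw [h2]
      have h3 : (0 : ℝ) ≤ N₀ := by linarith
      push_cast
      rw [abs_zero, zero_mul]
      positivity
    · have h2 : i = 1 := by omega
      subst h2
      have h3 : (C N₀ + C M * X : ℤ[X]).coeff 1 = M := by
        rw [coeff_add, coeff_C, coeff_C_mul, coeff_X, if_neg (by omega), if_pos rfl]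
        simp
      rw [h3, pow_one, abs_of_nonneg (by exact_mod_cast hM0)]
      push_cast
      refine hMD.trans ?_
      have h4 : (N₀ : ℝ) / (4 * (1 + 1)) = N₀ / 8 := by norm_num
      rw [h4]
      linarith

theorem wi (hFS : StmtFS) (hRT : StmtRT) (hCL : StmtCL) (hPI : StmtPI) : StmtWI := by
  classical
  intro θ hθ
  obtain ⟨C, hC1, hC⟩ := wclass hPI θ hθ
  refine ⟨C + 16, by linarith, ?_⟩
  intro D σ z Z P₀ y L m K N₀ M Sp a hD hσ hσm hCm hz1 hzZ hZD hP hPz hL hPL hzL hy hG hM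
    hN0 hN02 hMD hlD
  obtain ⟨C₉, hC₉⟩ : ∃ C₉, C₉ = C + 16 := ⟨_, rfl⟩
  rw [← hC₉] at hD hσm hCm ⊢
  have hCC : C ≤ C₉ := by rw [hC₉]; linarith
  have hD16 : 16 ≤ D := by linarith
  have hD1 : 1 ≤ D := by linarith
  have hDpos : 0 < D := by linarith
  have hlogD : 0 ≤ Real.log D := Real.log_nonneg hD1
  have hm0 : (0 : ℝ) ≤ m := Nat.cast_nonneg m
  have hZ4 : 4 ≤ Z := by nlinarith
  have hL0 : 0 < L := by rw [hL]; exact Real.rpow_pos_of_pos hDpos _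
  have hσm' : C * (2 * σ + 1) ^ 2 ≤ m :=
    (mul_le_mul_of_nonneg_right hCC (by positivity)).trans hσm
  have hCm' : C * m ≤ Real.log D := (mul_le_mul_of_nonneg_right hCC hm0).trans hCm
  have hZD' : Z < D := by
    refine lt_of_le_of_lt hZD ?_
    calc D ^ ((1 : ℝ) / 8) < D ^ (1 : ℝ) :=
          Real.rpow_lt_rpow_of_exponent_lt (by linarith) (by norm_num)
      _ = D := Real.rpow_one D
  have hprime : ∀ p ∈ Sp, p.Prime := fun p hp => (hG p hp).1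
  have hM0 : 0 ≤ M := by
    rw [hM]
    exact Finset.prod_nonneg fun p hp => by positivity
  obtain ⟨l, hl⟩ : ∃ l : ℤ[X], l = Polynomial.C N₀ + Polynomial.C M * X := ⟨_, rfl⟩
  have hF : Fam 1 l := by
    rw [hl, hM]
    exact hCL.2 Sp a N₀ hprime (fun p hp => (hG p hp).2.2.2.2.1) (fun p hp => (hG p hp).2.2.1)
  have hN : Near 1 (1 / 4) D (D ^ ((1 : ℝ) / 4)) l := by
    rw [hl] at hF ⊢
    exact near_lin hF hM0 hN0 hN02 hMD hD1
  have hev : ∀ τ : ℤ, l.eval τ = N₀ + M * τ := by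
    intro τ
    rw [hl]
    simp
  obtain ⟨R₀, hR₀⟩ := wpoint hFS hRT hCL Sp a N₀ M θ D σ z Z hG hM hz1 hzZ hZD' (by linarith) hσ
  obtain ⟨B, hB⟩ : ∃ B : Finset ℤ, B = (winS_finite Sp N₀ M L Z (D ^ σ)).toFinset := ⟨_, rfl⟩
  have hBmem : ∀ τ ∈ B, |(τ : ℝ)| ≤ L ∧
      Squarefree (N₀ + M * τ) ∧ ∃ x y : ℤ, 0 ≤ x ∧ 1 ≤ y ∧ NS Sp Z (x ^ 2 - (N₀ + M * τ) * y ^ 2) ∧
      (x : ℝ) + y * √((N₀ + M * τ : ℤ) : ℝ) ≤ D ^ σ := by
    intro τ hτ
    rw [hB, Set.Finite.mem_toFinset] at hτ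
    exact hτ
  have hBc : (WinS Sp N₀ M L Z (D ^ σ)).ncard = B.card := by
    rw [hB, Set.ncard_eq_toFinset_card _ (winS_finite Sp N₀ M L Z (D ^ σ))]
  rw [hBc]
  have hBne : ∀ τ ∈ B, l.eval τ ≠ 0 := by
    intro τ hτ h0
    have h1 := hlD τ (hBmem τ hτ).1
    rw [← hev, h0] at h1
    push_cast at h1
    linarith
  have hBR : ∀ a ∈ B, ∀ b ∈ B, (a : ℝ) - b ≤ 2 * L := by
    intro a ha b hb
    have h1 := (abs_le.1 (hBmem a ha).1).2
    have h2 := (abs_le.1 (hBmem b hb).1).1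
    linarith
  -- many small prime factors
  obtain ⟨B₀, hB₀⟩ : ∃ B₀ : Finset ℤ, B₀ = B.filter fun τ =>
    K + 1 ≤ ((l.eval τ).natAbs.primeFactors.filter fun p : ℕ => (p : ℝ) ≤ P₀).card := ⟨_, rfl⟩
  have hB₀c : (B₀.card : ℝ) ≤ 4 * L * (y ^ (K + 1))⁻¹ *
      Real.exp (y * (1 + Real.log P₀)) := by
    have h1 := count_small hN.fam.prim hN.fam.deg P₀ (2 * L) y (K + 1) hP hPL hy B₀
      (by
        intro a ha
        rw [hB₀, Finset.mem_filter] at ha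
        exact ⟨hBne a ha.1, ha.2⟩)
      (by
        intro a ha b hb
        rw [hB₀, Finset.mem_filter] at ha hb
        exact hBR a ha.1 b hb.1)
    refine h1.trans (le_of_eq ?_)
    push_cast
    ring_nf
  -- the classes
  obtain ⟨I, hI⟩ : ∃ I : ℕ, I = ⌊Real.log (D ^ σ) / Real.log 2⌋₊ := ⟨_, rfl⟩
  obtain ⟨nn, hnn⟩ : ∃ nn : ℕ, nn = ⌊2 * σ * Real.log D⌋₊ + 1 := ⟨_, rfl⟩
  rw [← hI, ← hnn] at hR₀
  obtain ⟨Bi, hBi⟩ : ∃ Bi : ℕ → (Sp → Fin nn × Bool) → Finset ℤ, Bi = fun i κ => B.filter fun τ =>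
    (∏ p ∈ Sp, (p : ℝ) ^ (kkf κ p) ≤ D ^ (2 * σ) ∧
      SolC Sp a (kkf κ) (Rf R₀ κ) (2 ^ i) z Z (N₀ + M * τ) τ) ∧ τ ∉ B₀ := ⟨_, rfl⟩
  have hlog2 : (1 : ℝ) / 2 ≤ Real.log 2 := by
    have := Real.log_two_gt_d9
    linarith
  have hlogDσ : Real.log (D ^ σ) = σ * Real.log D := Real.log_rpow hDpos σ
  have hIle : (I : ℝ) ≤ Real.log (D ^ σ) / Real.log 2 := by
    rw [hI]
    apply Nat.floor_le
    rw [hlogDσ]
    positivity
  obtain ⟨X1, hX1⟩ : ∃ X1, X1 = C * Z * D ^ (1 / (16 * (m : ℝ))) * ((m : ℝ) ^ 2 * Real.log D) ^ 3 +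
      (C * (m : ℝ) ^ 3 * Real.log D * (2 * L / √z + 1) + 4 * L * (√(√z))⁻¹ *
        Real.exp (C * (m : ℝ) ^ 3 * Real.log D / √P₀)) := ⟨_, rfl⟩
  have hX10 : 0 ≤ X1 := by
    rw [hX1]
    have : 0 ≤ D ^ (1 / (16 * (m : ℝ))) := Real.rpow_nonneg (by linarith) _
    have hC0 : 0 ≤ C := by linarith
    have hZ0 : 0 ≤ Z := by linarith
    positivity
  have hbi : ∀ i ∈ Finset.range (I + 1), ∀ κ : Sp → Fin nn × Bool, ((Bi i κ).card : ℝ) ≤ X1 := by
    intro i hi κ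
    rw [Finset.mem_range] at hi
    by_cases hQ : ∏ p ∈ Sp, (p : ℝ) ^ (kkf κ p) ≤ D ^ (2 * σ)
    · have hVD : (2 : ℝ) ^ i ≤ D ^ σ := by
        have h1 : (i : ℝ) ≤ Real.log (D ^ σ) / Real.log 2 :=
          le_trans (by exact_mod_cast (by omega : i ≤ I)) hIle
        rw [le_div_iff₀ (by linarith), ← Real.log_pow] at h1
        exact (Real.log_le_log_iff (by positivity) (by positivity)).1 h1
      rw [hX1]
      apply hC D σ z Z P₀ L (2 ^ i) m K l (Bi i κ) Sp a (kkf κ) (Rf R₀ κ) (by linarith) hσ hσm'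
        hCm' hz1 (by linarith) hZD hP hPz hL hzL (one_le_pow₀ (by norm_num)) hVD hN hprime
        (fun p hp => (hG p hp).2.2.2.2.2) hQ
      intro τ hτ
      rw [hBi] at hτ
      simp only [Finset.mem_filter] at hτ
      obtain ⟨hτB, ⟨-, hsol⟩, hτ0⟩ := hτ
      obtain ⟨h1, h2, -⟩ := hBmem τ hτB
      rw [hev]
      refine ⟨h1, hlD τ h1, h2, ?_, hsol⟩
      intro h3
      apply hτ0
      rw [hB₀, Finset.mem_filter, hev]
      exact ⟨hτB, h3⟩
    · have h1 : Bi i κ = ∅ := by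
        rw [hBi]
        apply Finset.filter_eq_empty_iff.2
        intro τ _ h2
        exact hQ h2.1.1
      rw [h1]
      simpa using hX10
  have hsub : B ⊆ B₀ ∪ (Finset.range (I + 1)).biUnion fun i =>
      (Finset.univ : Finset (Sp → Fin nn × Bool)).biUnion fun κ => Bi i κ := by
    intro τ hτ
    rw [Finset.mem_union]
    by_cases h0 : τ ∈ B₀
    · exact Or.inl h0
    · right
      obtain ⟨h1, h2, h3⟩ := hBmem τ hτ
      obtain ⟨i, κ, hi, hQ, hsol⟩ := hR₀ τ (hlD τ h1) h2 h3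
      rw [Finset.mem_biUnion]
      refine ⟨i, ?_, ?_⟩
      · rw [Finset.mem_range]
        omega
      · rw [Finset.mem_biUnion]
        refine ⟨κ, Finset.mem_univ _, ?_⟩
        rw [hBi]
        simp only [Finset.mem_filter]
        exact ⟨hτ, ⟨hQ, hsol⟩, h0⟩
  have h1 : (B.card : ℝ) ≤ B₀.card + ∑ i ∈ Finset.range (I + 1),
      ∑ κ : Sp → Fin nn × Bool, ((Bi i κ).card : ℝ) := by
    have h2 := (Finset.card_le_card hsub).trans (Finset.card_union_le _ _)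
    have h3 : ((Finset.range (I + 1)).biUnion fun i =>
        (Finset.univ : Finset (Sp → Fin nn × Bool)).biUnion fun κ => Bi i κ).card ≤
        ∑ i ∈ Finset.range (I + 1), ∑ κ : Sp → Fin nn × Bool, (Bi i κ).card :=
      Finset.card_biUnion_le.trans (Finset.sum_le_sum fun i _ => Finset.card_biUnion_le)
    exact_mod_cast h2.trans (Nat.add_le_add_left h3 _)
  have h2 : ∑ i ∈ Finset.range (I + 1), ∑ κ : Sp → Fin nn × Bool, ((Bi i κ).card : ℝ) ≤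
      ∑ i ∈ Finset.range (I + 1), ∑ κ : Sp → Fin nn × Bool, X1 :=
    Finset.sum_le_sum fun i hi => Finset.sum_le_sum fun κ _ => hbi i hi κ
  rw [Finset.sum_const, Finset.sum_const, Finset.card_range, Finset.card_univ, nsmul_eq_mul,
    nsmul_eq_mul] at h2
  have hcard : ((Fintype.card (Sp → Fin nn × Bool) : ℕ) : ℝ) = (2 * (nn : ℝ)) ^ Sp.card := by
    rw [Fintype.card_fun, Fintype.card_prod, Fintype.card_fin, Fintype.card_bool,
      Fintype.card_coe]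
    push_cast
    rw [mul_comm (nn : ℝ) 2]
  rw [hcard] at h2
  have hI2 : (((I + 1 : ℕ) : ℕ) : ℝ) ≤ 2 * σ * Real.log D + 1 := by
    push_cast
    have h3 : Real.log (D ^ σ) / Real.log 2 ≤ 2 * σ * Real.log D := by
      rw [div_le_iff₀ (by linarith), hlogDσ]
      have : 0 ≤ σ * Real.log D := by positivity
      nlinarith
    linarith
  have hσl : 0 ≤ 2 * σ * Real.log D := by positivity
  have hnn2 : (nn : ℝ) ≤ 2 * σ * Real.log D + 1 := by
    rw [hnn]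
    push_cast
    have := Nat.floor_le hσl
    linarith
  have hpow : (2 * (nn : ℝ)) ^ Sp.card ≤ (2 * (2 * σ * Real.log D + 1)) ^ Sp.card :=
    pow_le_pow_left₀ (by positivity) (by linarith) _
  obtain ⟨X2, hX2⟩ : ∃ X2, X2 = C₉ * Z * D ^ (1 / (16 * (m : ℝ))) *
      ((m : ℝ) ^ 2 * Real.log D) ^ 3 +
      (C₉ * (m : ℝ) ^ 3 * Real.log D * (2 * L / √z + 1) + 4 * L * (√(√z))⁻¹ *
        Real.exp (C₉ * (m : ℝ) ^ 3 * Real.log D / √P₀)) := ⟨_, rfl⟩
  have hX12 : X1 ≤ X2 := by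
    rw [hX1, hX2]
    have : 0 ≤ D ^ (1 / (16 * (m : ℝ))) := Real.rpow_nonneg (by linarith) _
    have hC0 : 0 ≤ C := by linarith
    have hZ0 : 0 ≤ Z := by linarith
    have hsP : 0 < √P₀ := Real.sqrt_pos.2 (by linarith)
    gcongr
  rw [← hX2]
  have h3 : ((I + 1 : ℕ) : ℝ) * ((2 * (nn : ℝ)) ^ Sp.card * X1) ≤
      (2 * σ * Real.log D + 1) * ((2 * (2 * σ * Real.log D + 1)) ^ Sp.card * X2) := by
    apply mul_le_mul hI2 _ (by positivity) (by positivity)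
    exact mul_le_mul hpow hX12 hX10 (by positivity)
  have h4 : (2 * σ * Real.log D + 1) * ((2 * (2 * σ * Real.log D + 1)) ^ Sp.card * X2) =
      (2 * σ * Real.log D + 1) * (2 * (2 * σ * Real.log D + 1)) ^ Sp.card * X2 := by ring
  rw [h4] at h3
  linarith

end Pool.Agent.H45.AD
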