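import Pool.Agent.H45.AD.Stm2
import Pool.Agent.H45.NF.WINN
import Pool.Agent.H45.PS.ROOT2

/-! The number of the points of a window in one class. -/

set_option autoImplicit false

namespace Pool.Agent.H45.AD

open Polynomial Pool.Agent.W223.HZ Pool.Agent.W223.PL Pool.Agent.Q276.PL Pool.Agent.H45.PF
  Pool.Agent.H45.PS

theorem wclass (hPI : StmtPI) (θ : ℝ) (hθ : 0 < θ) : ∃ C₉ : ℝ, 1 ≤ C₉ ∧
    ∀ (D σ z Z P₀ L V : ℝ) (m K : ℕ) (l : ℤ[X]) (T : Finset ℤ) (Sp : Finset ℕ) (a kk : ℕ → ℕ)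
    (R : ℕ → ℤ[X]), C₉ ≤ D → 0 ≤ σ →
    C₉ * (2 * σ + 1) ^ 2 ≤ m → C₉ * m ≤ Real.log D → 1 ≤ z → 1 ≤ Z →
    Z ≤ D ^ ((1 : ℝ) / 8) → 1 ≤ P₀ → P₀ ^ K ≤ √z →
    L = D ^ (1 / (8 * (m : ℝ))) → z ≤ 2 * L → 1 ≤ V → V ≤ D ^ σ →
    Near 1 (1 / 4) D (D ^ ((1 : ℝ) / 4)) l →
    (∀ p ∈ Sp, p.Prime) → (∀ p ∈ Sp, D ^ θ ≤ (p : ℝ) ^ a p) →
    (∏ p ∈ Sp, (p : ℝ) ^ kk p ≤ D ^ (2 * σ)) →
    (∀ τ ∈ T, |(τ : ℝ)| ≤ L ∧ D ≤ ((l.eval τ : ℤ) : ℝ) ∧ Squarefree (l.eval τ) ∧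
      ¬ (K + 1 ≤ ((l.eval τ).natAbs.primeFactors.filter fun p : ℕ => (p : ℝ) ≤ P₀).card) ∧
      SolC Sp a kk R V z Z (l.eval τ) τ) →
    (T.card : ℝ) ≤ C₉ * Z * D ^ (1 / (16 * (m : ℝ))) * ((m : ℝ) ^ 2 * Real.log D) ^ 3 +
        (C₉ * (m : ℝ) ^ 3 * Real.log D * (2 * L / √z + 1) + 4 * L * (√(√z))⁻¹ *
          Real.exp (C₉ * (m : ℝ) ^ 3 * Real.log D / √P₀)) := by
  classical
  obtain ⟨C, hC1, hC⟩ := hPI 1 (1 / 4) θ (by norm_num) (by norm_num) hθ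
  refine ⟨4 * C, by linarith, ?_⟩
  intro D σ z Z P₀ L V m K l T Sp a kk R hD hσ hσm hCm hz1 hZ1 hZD hP hPz hL hzL hV1 hVD hN
    hSp hSa hQ hT
  obtain ⟨C₉, hC₉⟩ : ∃ C₉, C₉ = 4 * C := ⟨_, rfl⟩
  rw [← hC₉] at hD hσm hCm ⊢
  have hCC : C ≤ C₉ := by rw [hC₉]; linarith
  have hD1 : 1 ≤ D := by linarith
  have hDpos : 0 < D := by linarith
  have hlogD : 0 ≤ Real.log D := Real.log_nonneg hD1
  have hm0 : (0 : ℝ) ≤ m := Nat.cast_nonneg m
  have hL0 : 0 < L := by rw [hL]; exact Real.rpow_pos_of_pos hDpos _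
  have hσm' : C * (2 * σ + 1) ^ 2 ≤ m :=
    (mul_le_mul_of_nonneg_right hCC (by positivity)).trans hσm
  have hCm' : C * m ≤ Real.log D := (mul_le_mul_of_nonneg_right hCC hm0).trans hCm
  have hlog2 : (1 : ℝ) / 2 ≤ Real.log 2 := by
    have := Real.log_two_gt_d9
    linarith
  have hTne : ∀ τ ∈ T, l.eval τ ≠ 0 := by
    intro τ hτ h0
    have h1 := (hT τ hτ).2.1
    rw [h0] at h1
    push_cast at h1
    linarith
  have hTR : ∀ a ∈ T, ∀ b ∈ T, (a : ℝ) - b ≤ 2 * L := by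
    intro a ha b hb
    have h1 := (abs_le.1 (hT a ha).1).2
    have h2 := (abs_le.1 (hT b hb).1).1
    linarith
  obtain ⟨M, hM0, hM, E, hE, hEc, hEg⟩ := hC D V σ z Z (D ^ ((1 : ℝ) / 4)) m l T Sp a kk R
    (by linarith) hσ hσm' hCm' hV1 hVD hz1 hZ1 hZD hN hSp hSa hQ (by
      intro τ hτ
      obtain ⟨h1, h2, h3, h4, h5⟩ := hT τ hτ
      rw [hL] at h1
      exact ⟨h1, h2, h5⟩)
  have hlogM : Real.log |(M : ℝ)| / Real.log 2 ≤ 2 * C * (m : ℝ) ^ 3 * Real.log D := by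
    rw [div_le_iff₀ (by linarith)]
    have h8 : 0 ≤ C * (m : ℝ) ^ 3 * Real.log D := by positivity
    nlinarith
  have hlogM0 : 0 ≤ (m : ℝ) ^ 3 * Real.log D := by positivity
  -- the points with a large prime
  obtain ⟨U, hU⟩ : ∃ U : Finset ℤ, U = (T \ E).filter fun τ =>
    ∃ p : ℕ, p.Prime ∧ √z < p ∧ (p : ℤ) ∣ M ∧ (p : ℤ) ∣ l.eval τ := ⟨_, rfl⟩
  obtain ⟨U', hU'⟩ : ∃ U' : Finset ℤ, U' = (T \ E).filter fun τ =>
    ¬ ∃ p : ℕ, p.Prime ∧ √z < p ∧ (p : ℤ) ∣ M ∧ (p : ℤ) ∣ l.eval τ := ⟨_, rfl⟩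
  have hUc : (U.card : ℝ) ≤ C₉ * (m : ℝ) ^ 3 * Real.log D * (2 * L / √z + 1) := by
    have h1 : (U.card : ℝ) ≤ Real.log |(M : ℝ)| / Real.log 2 * ((1 : ℕ) * (2 * L / √z + 1)) := by
      apply count_big hN.fam.prim hN.fam.deg M hM0 (√z) (2 * L) (Real.one_le_sqrt.2 hz1)
        (by positivity)
      · intro τ hτ
        rw [hU, Finset.mem_filter] at hτ
        exact hτ.2
      · intro a ha b hb
        rw [hU, Finset.mem_filter, Finset.mem_sdiff] at ha hb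
        exact hTR a ha.1.1 b hb.1.1
    refine h1.trans ?_
    have h6 : 0 ≤ 2 * L / √z + 1 := by positivity
    calc Real.log |(M : ℝ)| / Real.log 2 * ((1 : ℕ) * (2 * L / √z + 1))
        ≤ (2 * C * (m : ℝ) ^ 3 * Real.log D) * ((1 : ℕ) * (2 * L / √z + 1)) :=
          mul_le_mul_of_nonneg_right hlogM (by positivity)
      _ = (2 * C) * ((m : ℝ) ^ 3 * Real.log D * (2 * L / √z + 1)) := by push_cast; ring
      _ ≤ C₉ * ((m : ℝ) ^ 3 * Real.log D * (2 * L / √z + 1)) := by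
          apply mul_le_mul_of_nonneg_right _ (by positivity)
          rw [hC₉]
          linarith
      _ = C₉ * (m : ℝ) ^ 3 * Real.log D * (2 * L / √z + 1) := by ring
  have hU'c : (U'.card : ℝ) ≤ 4 * L * (√(√z))⁻¹ *
      Real.exp (C₉ * (m : ℝ) ^ 3 * Real.log D / √P₀) := by
    have h1 := count_rough hN.fam.prim hN.fam.deg M hM0 P₀ z (2 * L) hP hz1 hzL U' (by
      intro τ hτ
      rw [hU', Finset.mem_filter] at hτ
      have h1 := hEg τ hτ.1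
      have h2 := (Finset.mem_sdiff.1 hτ.1).1
      obtain ⟨-, -, h3, h4, -⟩ := hT τ h2
      rcases tri (hTne τ h2) h3 hP hz1 hPz h1 with h | h | h
      · exact absurd h hτ.2
      · exact absurd h h4
      · exact h) (by
      intro a ha b hb
      rw [hU', Finset.mem_filter, Finset.mem_sdiff] at ha hb
      exact hTR a ha.1.1 b hb.1.1)
    refine h1.trans ?_
    have hsP : 0 < √P₀ := Real.sqrt_pos.2 (by linarith)
    have h2 : ((1 : ℕ) : ℝ) * (Real.log |(M : ℝ)| / Real.log 2) ≤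
        C₉ * (m : ℝ) ^ 3 * Real.log D := by
      calc ((1 : ℕ) : ℝ) * (Real.log |(M : ℝ)| / Real.log 2)
          = Real.log |(M : ℝ)| / Real.log 2 := by push_cast; ring
        _ ≤ 2 * C * (m : ℝ) ^ 3 * Real.log D := hlogM
        _ = (2 * C) * ((m : ℝ) ^ 3 * Real.log D) := by ring
        _ ≤ C₉ * ((m : ℝ) ^ 3 * Real.log D) := by
            apply mul_le_mul_of_nonneg_right _ hlogM0
            rw [hC₉]
            linarith
        _ = C₉ * (m : ℝ) ^ 3 * Real.log D := by ring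
    have h3 : Real.exp (((1 : ℕ) : ℝ) * (Real.log |(M : ℝ)| / Real.log 2) / √P₀) ≤
        Real.exp (C₉ * (m : ℝ) ^ 3 * Real.log D / √P₀) :=
      Real.exp_le_exp.2 (div_le_div_of_nonneg_right h2 hsP.le)
    have h4 : 2 * (2 * L) * (√(√z))⁻¹ = 4 * L * (√(√z))⁻¹ := by ring
    rw [h4]
    exact mul_le_mul_of_nonneg_left h3 (by positivity)
  have h3 : (T.card : ℝ) ≤ E.card + (U.card + U'.card) := by
    have h4 := Finset.card_sdiff_add_card_eq_card hE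
    have h5 : U.card + U'.card = (T \ E).card := by
      rw [hU, hU']
      exact Finset.card_filter_add_card_filter_not _
    have h6 : T.card = (U.card + U'.card) + E.card := by omega
    have h7 : (T.card : ℝ) = (U.card + U'.card) + E.card := by exact_mod_cast h6
    linarith
  have hX1 : 0 ≤ Z * D ^ (1 / (16 * (m : ℝ))) * ((m : ℝ) ^ 2 * Real.log D) ^ 3 := by
    have : 0 ≤ D ^ (1 / (16 * (m : ℝ))) := Real.rpow_nonneg (by linarith) _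
    positivity
  have hX3 : C * Z * D ^ (1 / (16 * (m : ℝ))) * ((m : ℝ) ^ 2 * Real.log D) ^ 3 ≤
      C₉ * Z * D ^ (1 / (16 * (m : ℝ))) * ((m : ℝ) ^ 2 * Real.log D) ^ 3 := by
    have h3 := mul_le_mul_of_nonneg_right hCC hX1
    calc C * Z * D ^ (1 / (16 * (m : ℝ))) * ((m : ℝ) ^ 2 * Real.log D) ^ 3
        = C * (Z * D ^ (1 / (16 * (m : ℝ))) * ((m : ℝ) ^ 2 * Real.log D) ^ 3) := by ring
      _ ≤ C₉ * (Z * D ^ (1 / (16 * (m : ℝ))) * ((m : ℝ) ^ 2 * Real.log D) ^ 3) := h3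
      _ = _ := by ring
  linarith

end Pool.Agent.H45.AD
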