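import Pool.Agent.H45.AD.WI1

/-! The class of a point of a window. -/

set_option autoImplicit false

namespace Pool.Agent.H45.AD

open Polynomial Pool.Agent.W223.HZ Pool.Agent.W223.PL Pool.Agent.Q276.PL Pool.Agent.H45.PF
  Pool.Agent.H45.PS

/-- the exponents of a class -/
def kkf {Sp : Finset ℕ} {n : ℕ} (κ : Sp → Fin n × Bool) (p : ℕ) : ℕ :=
  if h : p ∈ Sp then ((κ ⟨p, h⟩).1 : ℕ) else 0

/-- the square roots of a class -/
noncomputable def Rf {Sp : Finset ℕ} {n : ℕ} (R₀ : ℕ → ℕ → ℤ[X]) (κ : Sp → Fin n × Bool) (p : ℕ) :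
    ℤ[X] :=
  if h : p ∈ Sp then (if (κ ⟨p, h⟩).2 then R₀ p (κ ⟨p, h⟩).1 else - R₀ p (κ ⟨p, h⟩).1) else 0

theorem wpoint (hFS : StmtFS) (hRT : StmtRT) (hCL : StmtCL) (Sp : Finset ℕ) (a : ℕ → ℕ)
    (N₀ M : ℤ) (θ D σ z Z : ℝ) (hG : GoodS Sp a N₀ θ D) (hM : M = ∏ p ∈ Sp, (p : ℤ) ^ a p)
    (hz : 1 ≤ z) (hzZ : 4 * z ^ 2 ≤ Z) (hZD : Z < D) (hD : 2 ≤ D) (hσ : 0 ≤ σ) :
    ∃ R₀ : ℕ → ℕ → ℤ[X], ∀ τ : ℤ, D ≤ ((N₀ + M * τ : ℤ) : ℝ) → Squarefree (N₀ + M * τ) →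
    (∃ x y : ℤ, 0 ≤ x ∧ 1 ≤ y ∧ NS Sp Z (x ^ 2 - (N₀ + M * τ) * y ^ 2) ∧
      (x : ℝ) + y * √((N₀ + M * τ : ℤ) : ℝ) ≤ D ^ σ) →
    ∃ (i : ℕ) (κ : Sp → Fin (⌊2 * σ * Real.log D⌋₊ + 1) × Bool),
      i ≤ ⌊Real.log (D ^ σ) / Real.log 2⌋₊ ∧ ∏ p ∈ Sp, (p : ℝ) ^ (kkf κ p) ≤ D ^ (2 * σ) ∧
      SolC Sp a (kkf κ) (Rf R₀ κ) (2 ^ i) z Z (N₀ + M * τ) τ := by
  classical
  have hR : ∀ p k : ℕ, ∃ R : ℤ[X], p ∈ Sp → ∀ w : ℤ, (p : ℤ) ∣ w →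
      (p : ℤ) ^ k ∣ (R.eval w) ^ 2 - (N₀ + (∏ q ∈ Sp.erase p, (q : ℤ) ^ a q) * w) := by
    intro p k
    by_cases hp : p ∈ Sp
    · obtain ⟨h1, h2, h3, h4, h5, h6⟩ := hG p hp
      obtain ⟨R, hR⟩ := hRT.1 p k N₀ (∏ q ∈ Sp.erase p, (q : ℤ) ^ a q) h1 h2 h3 h4
      exact ⟨R, fun _ => hR⟩
    · exact ⟨0, fun h => absurd h hp⟩
  choose R₀ hR₀ using hR
  refine ⟨R₀, fun τ hlD hsf hsol => ?_⟩
  obtain ⟨d, hd⟩ : ∃ d : ℤ, d = N₀ + M * τ := ⟨_, rfl⟩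
  rw [← hd] at hlD hsf hsol ⊢
  obtain ⟨x', y', hx', hy', hns', hle'⟩ := hsol
  have hd2r : (2 : ℝ) ≤ d := hD.trans hlD
  have hd2 : 2 ≤ d := by exact_mod_cast hd2r
  have hDpos : 0 < D := by linarith
  obtain ⟨x, y, hF, hle⟩ := hFS.2.1 Sp Z d x' y' (by omega) hx' hy' hns'
  have hle2 : (x : ℝ) + y * √(d : ℝ) ≤ D ^ σ := hle.trans hle'
  obtain ⟨hco, hne⟩ := hFS.2.2.1 Sp Z d x y hd2 hsf hF
  have hBF : ∀ n : ℤ, 1 ≤ n → x ^ 2 - d * y ^ 2 = n ^ 2 → BF z d x y n := by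
    intro n hn hn2
    exact hFS.2.2.2 Sp Z z d x y n hd2 hsf hF hn hn2 hz hzZ (by linarith)
  obtain ⟨hx0, hy1, hNS, -⟩ := hF
  obtain ⟨N, hN⟩ : ∃ N : ℤ, N = x ^ 2 - d * y ^ 2 := ⟨_, rfl⟩
  rw [← hN] at hne hNS hBF
  obtain ⟨n, hn0, hnZ, hNn, hQN⟩ := hCL.1 Sp Z N (fun p hp => (hG p hp).1) hne hNS
  -- sizes
  have hx0r : (0 : ℝ) ≤ x := by exact_mod_cast hx0
  have hy1r : (1 : ℝ) ≤ y := by exact_mod_cast hy1
  have hsd1 : 1 ≤ √(d : ℝ) := Real.one_le_sqrt.2 (by linarith)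
  have hyle : (y : ℝ) ≤ D ^ σ := by nlinarith
  have hxle : (x : ℝ) ≤ D ^ σ := by nlinarith
  have hysd : (y : ℝ) * √(d : ℝ) ≤ D ^ σ := by linarith
  have hD2σ : D ^ (2 * σ) = (D ^ σ) ^ 2 := by
    rw [← Real.rpow_natCast, ← Real.rpow_mul hDpos.le]
    congr 1
    push_cast
    ring
  have hNabs : |(N : ℝ)| ≤ D ^ (2 * σ) := by
    rw [hN, hD2σ]
    push_cast
    have h1 : (x : ℝ) ^ 2 ≤ (D ^ σ) ^ 2 := pow_le_pow_left₀ hx0r hxle 2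
    have h2 : (d : ℝ) * (y : ℝ) ^ 2 ≤ (D ^ σ) ^ 2 := by
      have h3 : ((y : ℝ) * √(d : ℝ)) ^ 2 ≤ (D ^ σ) ^ 2 :=
        pow_le_pow_left₀ (by positivity) hysd 2
      have h4 : ((y : ℝ) * √(d : ℝ)) ^ 2 = (d : ℝ) * (y : ℝ) ^ 2 := by
        rw [mul_pow, Real.sq_sqrt (by linarith)]
        ring
      rw [h4] at h3
      exact h3
    rw [abs_le]
    have h5 : 0 ≤ (x : ℝ) ^ 2 := by positivity
    have h6 : 0 ≤ (d : ℝ) * (y : ℝ) ^ 2 := by positivity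
    constructor <;> linarith
  have hQD : ∏ p ∈ Sp, (p : ℝ) ^ (padicValInt p N) ≤ D ^ (2 * σ) := hQN.trans hNabs
  -- the exponents
  have hexp : ∀ p ∈ Sp, padicValInt p N < ⌊2 * σ * Real.log D⌋₊ + 1 := by
    intro p hp
    rw [Nat.lt_succ_iff]
    apply Nat.le_floor
    obtain ⟨h1, h2, -⟩ := hG p hp
    have hp3 : 3 ≤ p := by
      have := h1.two_le
      omega
    have h3 : (p : ℝ) ^ (padicValInt p N) ≤ D ^ (2 * σ) := by
      refine le_trans ?_ hQD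
      have h4 := Finset.mul_prod_erase Sp (fun q : ℕ => (q : ℝ) ^ (padicValInt q N)) hp
      rw [← h4]
      have h5 : 1 ≤ ∏ q ∈ Sp.erase p, (q : ℝ) ^ (padicValInt q N) := by
        refine Finset.prod_induction _ (fun r : ℝ => 1 ≤ r) (fun a b ha hb => ?_) le_rfl ?_
        · nlinarith
        · intro q hq
          exact one_le_pow₀ (by
            exact_mod_cast (hG q (Finset.mem_of_mem_erase hq)).1.one_lt.le)
      have h6 : (0 : ℝ) ≤ (p : ℝ) ^ (padicValInt p N) := by positivity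
      exact le_mul_of_one_le_right h6 h5
    have hp3r : (3 : ℝ) ≤ p := by exact_mod_cast hp3
    have h4 := Real.log_le_log (by positivity) h3
    rw [Real.log_pow, Real.log_rpow hDpos] at h4
    have h5 : 1 ≤ Real.log p := by
      rw [Real.le_log_iff_exp_le (by positivity)]
      have := Real.exp_one_lt_d9
      linarith
    have h6 : (0 : ℝ) ≤ (padicValInt p N : ℝ) := Nat.cast_nonneg _
    nlinarith
  -- the signs
  have hdvdN : ∀ p ∈ Sp, (p : ℤ) ^ (padicValInt p N) ∣ N := by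
    intro p hp
    conv_rhs => rw [hNn]
    exact Dvd.dvd.mul_left (Finset.dvd_prod_of_mem (fun q : ℕ => (q : ℤ) ^ (padicValInt q N)) hp) _
  have hzz : ∀ p ∈ Sp, N₀ + (∏ q ∈ Sp.erase p, (q : ℤ) ^ a q) * ((p : ℤ) ^ a p * τ) = d := by
    intro p hp
    have h4 := Finset.mul_prod_erase Sp (fun q : ℕ => (q : ℤ) ^ a q) hp
    rw [hd, hM, ← h4]
    ring
  have hsign : ∀ p ∈ Sp,
      (p : ℤ) ^ (padicValInt p N) ∣ x - (R₀ p (padicValInt p N)).eval ((p : ℤ) ^ a p * τ) * y ∨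
      (p : ℤ) ^ (padicValInt p N) ∣ x + (R₀ p (padicValInt p N)).eval ((p : ℤ) ^ a p * τ) * y := by
    intro p hp
    obtain ⟨h1, h2, h3, h4, h5, h6⟩ := hG p hp
    have h7 : (p : ℤ) ∣ (p : ℤ) ^ a p * τ := (dvd_pow_self _ (by omega)).mul_right _
    have h8 := hR₀ p (padicValInt p N) hp _ h7
    rw [hzz p hp] at h8
    apply hRT.2 p (padicValInt p N) d _ x y h1 h2 _ hco h8
    · rw [← hN]
      exact hdvdN p hp
    · intro h9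
      apply h3
      have h10 := hzz p hp
      have h11 : N₀ = d - (∏ q ∈ Sp.erase p, (q : ℤ) ^ a q) * ((p : ℤ) ^ a p * τ) := by
        linarith
      rw [h11]
      exact dvd_sub h9 (h7.mul_left _)
  obtain ⟨i, hi, hi1, hi2⟩ := dyad hy1 hyle
  refine ⟨i, fun p => (⟨padicValInt p N, hexp p p.2⟩,
    decide ((((p : ℕ) : ℤ) ^ (padicValInt p N)) ∣
      x - (R₀ p (padicValInt p N)).eval (((p : ℕ) : ℤ) ^ a p * τ) * y)), hi, ?_, ?_⟩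
  · refine le_trans (le_of_eq ?_) hQD
    apply Finset.prod_congr rfl
    intro p hp
    unfold kkf
    rw [dif_pos hp]
  refine ⟨x, y, hx0, hi1, hi2, hco, ⟨n, hn0, hnZ, ?_⟩, ?_, ?_⟩
  · rw [← hN]
    conv_lhs => rw [hNn]
    congr 1
    apply Finset.prod_congr rfl
    intro p hp
    unfold kkf
    rw [dif_pos hp]
  · intro p hp
    unfold kkf Rf
    rw [dif_pos hp, dif_pos hp]
    by_cases h1 : (p : ℤ) ^ (padicValInt p N) ∣
        x - (R₀ p (padicValInt p N)).eval ((p : ℤ) ^ a p * τ) * y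
    · simpa [h1] using h1
    · have h2 := (hsign p hp).resolve_left h1
      simp only [h1, decide_false, Bool.false_eq_true, if_false]
      rw [eval_neg]
      have h3 : x - -(R₀ p (padicValInt p N)).eval ((p : ℤ) ^ a p * τ) * y =
          x + (R₀ p (padicValInt p N)).eval ((p : ℤ) ^ a p * τ) * y := by ring
      rw [h3]
      exact h2
  · rw [← hN]
    exact hBF

end Pool.Agent.H45.AD
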